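import Pool.Agent.MP_a28cf0_nt.Cub.Defs

set_option autoImplicit false

namespace Pool.Agent.MP_a28cf0_nt.Cub

open MeasureTheory Complex Filter Topology Set
open scoped ENNReal MatrixGroups

/-! ### Algebra -/

theorem E_ext {M N : E} (h1 : M.1.re = N.1.re) (h2 : M.1.im = N.1.im) (h3 : M.2.re = N.2.re)
    (h4 : M.2.im = N.2.im) : M = N :=
  Prod.ext (Complex.ext h1 h2) (Complex.ext h3 h4)

/-- coordinates of the flow -/
theorem fl_apply (s : ℝ) (M : E) :
    (fl s M).1.re = Real.exp s * M.1.re ∧ (fl s M).1.im = Real.exp (-s) * M.1.im ∧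
    (fl s M).2.re = Real.exp s * M.2.re ∧ (fl s M).2.im = Real.exp (-s) * M.2.im := by
  have h1 := Real.cosh_add_sinh s
  have h2 := Real.cosh_sub_sinh s
  refine ⟨?_, ?_, ?_, ?_⟩ <;>
    simp only [fl, Prod.fst_add, Prod.snd_add, Prod.smul_fst, Prod.smul_snd, Prod.fst_star,
      Prod.snd_star, add_re, add_im, real_smul, mul_re, mul_im, ofReal_re, ofReal_im, star_def,
      conj_re, conj_im, ← h1, ← h2] <;> ring

/-- coordinates of the rotation -/
theorem rot_apply (θ : ℝ) (M : E) :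
    (rot θ M).1.re = Real.cos θ * M.1.re - Real.sin θ * M.1.im ∧
    (rot θ M).1.im = Real.sin θ * M.1.re + Real.cos θ * M.1.im ∧
    (rot θ M).2.re = Real.cos θ * M.2.re - Real.sin θ * M.2.im ∧
    (rot θ M).2.im = Real.sin θ * M.2.re + Real.cos θ * M.2.im := by
  refine ⟨?_, ?_, ?_, ?_⟩ <;>
    simp only [rot, Prod.smul_fst, Prod.smul_snd, smul_eq_mul, mul_re, mul_im,
      exp_ofReal_mul_I_re, exp_ofReal_mul_I_im] <;> ring

theorem mul_apply' (A M : E) :
    (mul A M).1.re = A.1.im * M.1.re + A.1.re * M.2.re ∧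
    (mul A M).1.im = A.1.im * M.1.im + A.1.re * M.2.im ∧
    (mul A M).2.re = A.2.im * M.1.re + A.2.re * M.2.re ∧
    (mul A M).2.im = A.2.im * M.1.im + A.2.re * M.2.im := by
  refine ⟨?_, ?_, ?_, ?_⟩ <;> simp [mul]

theorem act_apply (γ : SL(2, ℤ)) (M : E) :
    (act γ M).1.re = (γ 0 0 : ℝ) * M.1.re + (γ 0 1 : ℝ) * M.2.re ∧
    (act γ M).1.im = (γ 0 0 : ℝ) * M.1.im + (γ 0 1 : ℝ) * M.2.im ∧
    (act γ M).2.re = (γ 1 0 : ℝ) * M.1.re + (γ 1 1 : ℝ) * M.2.re ∧
    (act γ M).2.im = (γ 1 0 : ℝ) * M.1.im + (γ 1 1 : ℝ) * M.2.im := by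
  refine ⟨?_, ?_, ?_, ?_⟩ <;> simp [act]

theorem smul_apply' (s : ℝ) (M : E) :
    (s • M).1.re = s * M.1.re ∧ (s • M).1.im = s * M.1.im ∧
    (s • M).2.re = s * M.2.re ∧ (s • M).2.im = s * M.2.im := by
  refine ⟨?_, ?_, ?_, ?_⟩ <;> simp

theorem det_gamma (γ : SL(2, ℤ)) : (γ 0 0 : ℝ) * γ 1 1 - (γ 0 1 : ℝ) * γ 1 0 = 1 := by
  have h := γ.det_coe
  rw [Matrix.det_fin_two] at h
  exact_mod_cast h

theorem dt_rot (θ : ℝ) (M : E) : dt (rot θ M) = dt M := by
  obtain ⟨h1, h2, h3, h4⟩ := rot_apply θ M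
  simp only [dt, h1, h2, h3, h4]
  have := Real.sin_sq_add_cos_sq θ
  linear_combination (M.1.im * M.2.re - M.1.re * M.2.im) * this

theorem dt_fl (s : ℝ) (M : E) : dt (fl s M) = dt M := by
  obtain ⟨h1, h2, h3, h4⟩ := fl_apply s M
  simp only [dt, h1, h2, h3, h4]
  have : Real.exp s * Real.exp (-s) = 1 := by rw [← Real.exp_add]; simp
  linear_combination (M.1.im * M.2.re - M.1.re * M.2.im) * this

theorem dt_act (γ : SL(2, ℤ)) (M : E) : dt (act γ M) = dt M := by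
  obtain ⟨h1, h2, h3, h4⟩ := act_apply γ M
  simp only [dt, h1, h2, h3, h4]
  linear_combination (M.1.im * M.2.re - M.1.re * M.2.im) * det_gamma γ

theorem dt_smul (s : ℝ) (M : E) : dt (s • M) = s ^ 2 * dt M := by
  obtain ⟨h1, h2, h3, h4⟩ := smul_apply' s M
  simp only [dt, h1, h2, h3, h4]; ring

theorem dt_mul (A M : E) : dt (mul A M) = dt A * dt M := by
  obtain ⟨h1, h2, h3, h4⟩ := mul_apply' A M
  simp only [dt, h1, h2, h3, h4]; ring

theorem dt_one : dt one = 1 := by simp [dt, one]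

theorem snd_ne_zero {M : E} (hM : M ∈ Gp) : M.2 ≠ 0 := by
  intro h
  have : dt M = 0 := by simp [dt, h]
  have h2 : 0 < dt M := hM
  linarith

theorem im_pr (M : E) : (pr M).im = dt M / normSq M.2 := by
  simp only [pr, div_im, dt]; ring

theorem pr_mem {M : E} (hM : M ∈ Gp) : pr M ∈ Up := by
  show 0 < (pr M).im
  rw [im_pr]
  exact div_pos hM (normSq_pos.2 (snd_ne_zero hM))

theorem pr_rot (θ : ℝ) (M : E) : pr (rot θ M) = pr M := by
  simp only [pr, rot, Prod.smul_fst, Prod.smul_snd, smul_eq_mul]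
  exact mul_div_mul_left _ _ (Complex.exp_ne_zero _)

theorem pr_smul {s : ℝ} (hs : s ≠ 0) (M : E) : pr (s • M) = pr M := by
  simp only [pr, Prod.smul_fst, Prod.smul_snd, real_smul]
  exact mul_div_mul_left _ _ (by exact_mod_cast hs)

theorem pr_act (γ : SL(2, ℤ)) {M : E} (hM : M ∈ Gp) :
    pr (act γ M) = ((γ 0 0 : ℂ) * pr M + (γ 0 1 : ℂ)) / ((γ 1 0 : ℂ) * pr M + (γ 1 1 : ℂ)) := by
  have h := snd_ne_zero hM
  simp only [pr, act]
  rw [← mul_div_mul_right ((γ 0 0 : ℂ) * (M.1 / M.2) + (γ 0 1 : ℂ)) _ h]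
  congr 1 <;> field_simp

theorem rot_zero (M : E) : rot 0 M = M := by simp [rot]

theorem rot_rot (a b : ℝ) (M : E) : rot a (rot b M) = rot (a + b) M := by
  simp only [rot, smul_smul, ← Complex.exp_add]; congr 2; push_cast; ring

theorem fl_zero (M : E) : fl 0 M = M := by simp [fl]

theorem fl_fl (a b : ℝ) (M : E) : fl a (fl b M) = fl (a + b) M := by
  obtain ⟨h1, h2, h3, h4⟩ := fl_apply a (fl b M)
  obtain ⟨g1, g2, g3, g4⟩ := fl_apply b M
  obtain ⟨k1, k2, k3, k4⟩ := fl_apply (a + b) M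
  apply E_ext <;> simp only [h1, h2, h3, h4, g1, g2, g3, g4, k1, k2, k3, k4, neg_add,
    Real.exp_add] <;> ring

theorem rot_smul (θ s : ℝ) (M : E) : rot θ (s • M) = s • rot θ M := by
  simp only [rot]; exact smul_comm _ _ _

theorem fl_smul (a s : ℝ) (M : E) : fl a (s • M) = s • fl a M := by
  obtain ⟨h1, h2, h3, h4⟩ := fl_apply a (s • M)
  obtain ⟨g1, g2, g3, g4⟩ := fl_apply a M
  obtain ⟨k1, k2, k3, k4⟩ := smul_apply' s M
  obtain ⟨l1, l2, l3, l4⟩ := smul_apply' s (fl a M)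
  apply E_ext <;> simp only [h1, h2, h3, h4, g1, g2, g3, g4, k1, k2, k3, k4, l1, l2, l3, l4] <;> ring

theorem mul_one' (A : E) : mul A one = A := by
  obtain ⟨h1, h2, h3, h4⟩ := mul_apply' A one
  apply E_ext <;> simp only [h1, h2, h3, h4] <;> simp [one]

theorem one_mul' (M : E) : mul one M = M := by
  obtain ⟨h1, h2, h3, h4⟩ := mul_apply' one M
  apply E_ext <;> simp only [h1, h2, h3, h4] <;> simp [one]

theorem mul_assoc' (A B M : E) : mul (mul A B) M = mul A (mul B M) := by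
  apply E_ext <;> simp only [(mul_apply' _ _).1, (mul_apply' _ _).2.1, (mul_apply' _ _).2.2.1,
    (mul_apply' _ _).2.2.2] <;> ring

theorem mul_rot (A : E) (θ : ℝ) (M : E) : mul A (rot θ M) = rot θ (mul A M) := by
  apply E_ext <;> simp only [(mul_apply' _ _).1, (mul_apply' _ _).2.1, (mul_apply' _ _).2.2.1,
    (mul_apply' _ _).2.2.2, (rot_apply _ _).1, (rot_apply _ _).2.1, (rot_apply _ _).2.2.1,
    (rot_apply _ _).2.2.2] <;> ring

theorem mul_fl (A : E) (s : ℝ) (M : E) : mul A (fl s M) = fl s (mul A M) := by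
  apply E_ext <;> simp only [(mul_apply' _ _).1, (mul_apply' _ _).2.1, (mul_apply' _ _).2.2.1,
    (mul_apply' _ _).2.2.2, (fl_apply _ _).1, (fl_apply _ _).2.1, (fl_apply _ _).2.2.1,
    (fl_apply _ _).2.2.2] <;> ring

theorem mul_smul' (A : E) (s : ℝ) (M : E) : mul A (s • M) = s • mul A M := by
  apply E_ext <;> simp only [(mul_apply' _ _).1, (mul_apply' _ _).2.1, (mul_apply' _ _).2.2.1,
    (mul_apply' _ _).2.2.2, (smul_apply' _ _).1, (smul_apply' _ _).2.1, (smul_apply' _ _).2.2.1,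
    (smul_apply' _ _).2.2.2] <;> ring

theorem exists_inv {A : E} (hA : A ∈ Gp) : ∃ B ∈ Gp, mul A B = one ∧ mul B A = one := by
  have h0 : 0 < dt A := hA
  obtain ⟨d, hd⟩ : ∃ d : ℝ, d * (A.1.im * A.2.re - A.1.re * A.2.im) = 1 :=
    ⟨(dt A)⁻¹, inv_mul_cancel₀ h0.ne'⟩
  have hd0 : 0 < d := by
    by_contra hn
    have : d * (A.1.im * A.2.re - A.1.re * A.2.im) ≤ 0 :=
      mul_nonpos_of_nonpos_of_nonneg (not_lt.1 hn) h0.le
    linarith
  refine ⟨(⟨-A.1.re * d, A.2.re * d⟩, ⟨A.1.im * d, -A.2.im * d⟩), ?_, ?_, ?_⟩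
  · show 0 < dt _
    have : dt ((⟨-A.1.re * d, A.2.re * d⟩, ⟨A.1.im * d, -A.2.im * d⟩) : E) = d := by
      simp only [dt]; linear_combination d * hd
    rw [this]; exact hd0
  · apply E_ext <;> simp only [(mul_apply' _ _).1, (mul_apply' _ _).2.1, (mul_apply' _ _).2.2.1,
      (mul_apply' _ _).2.2.2, one, I_re, I_im, one_re, one_im] <;>
      first | linear_combination hd | ring
  · apply E_ext <;> simp only [(mul_apply' _ _).1, (mul_apply' _ _).2.1, (mul_apply' _ _).2.2.1,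
      (mul_apply' _ _).2.2.2, one, I_re, I_im, one_re, one_im] <;>
      first | linear_combination hd | ring

theorem act_eq_mul (γ : SL(2, ℤ)) (M : E) : act γ M = mul (act γ one) M := by
  apply E_ext <;> simp only [(mul_apply' _ _).1, (mul_apply' _ _).2.1, (mul_apply' _ _).2.2.1,
    (mul_apply' _ _).2.2.2, (act_apply _ _).1, (act_apply _ _).2.1, (act_apply _ _).2.2.1,
    (act_apply _ _).2.2.2] <;> simp [one]

theorem act_one (M : E) : act 1 M = M := by
  simp [act]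

theorem act_mul (γ γ' : SL(2, ℤ)) (M : E) : act (γ * γ') M = act γ (act γ' M) := by
  simp only [act, Matrix.SpecialLinearGroup.coe_mul, Matrix.mul_apply, Fin.sum_univ_two]
  refine Prod.ext ?_ ?_ <;> push_cast <;> ring

theorem act_rot (γ : SL(2, ℤ)) (θ : ℝ) (M : E) : act γ (rot θ M) = rot θ (act γ M) := by
  rw [act_eq_mul, mul_rot, ← act_eq_mul]

theorem act_fl (γ : SL(2, ℤ)) (s : ℝ) (M : E) : act γ (fl s M) = fl s (act γ M) := by
  rw [act_eq_mul, mul_fl, ← act_eq_mul]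

theorem act_smul (γ : SL(2, ℤ)) (s : ℝ) (M : E) : act γ (s • M) = s • act γ M := by
  rw [act_eq_mul, mul_smul', ← act_eq_mul]

theorem norm_rot (θ : ℝ) (M : E) : ‖rot θ M‖ = ‖M‖ := by
  rw [rot, norm_smul, Complex.norm_exp_ofReal_mul_I, one_mul]

theorem norm_star_E (M : E) : ‖star M‖ = ‖M‖ := by
  simp [Prod.norm_def]

theorem norm_fl_le (s : ℝ) (M : E) : ‖fl s M‖ ≤ Real.exp |s| * ‖M‖ := by
  rw [fl]
  refine (norm_add_le _ _).trans ?_
  rw [norm_smul, norm_smul, norm_star_E, Real.norm_eq_abs, Real.norm_eq_abs,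
    abs_of_pos (Real.cosh_pos s), Real.abs_sinh, ← Real.cosh_abs s, ← add_mul,
    Real.cosh_add_sinh]

/-! ### Topology and measure -/

theorem contDiff_dt {n : WithTop ℕ∞} : ContDiff ℝ n dt := by
  have h1 : ContDiff ℝ n fun M : E => M.1.re := reCLM.contDiff.comp contDiff_fst
  have h2 : ContDiff ℝ n fun M : E => M.1.im := imCLM.contDiff.comp contDiff_fst
  have h3 : ContDiff ℝ n fun M : E => M.2.re := reCLM.contDiff.comp contDiff_snd
  have h4 : ContDiff ℝ n fun M : E => M.2.im := imCLM.contDiff.comp contDiff_snd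
  exact (h2.mul h3).sub (h1.mul h4)

theorem continuous_dt : Continuous dt := (contDiff_dt (n := 0)).continuous

theorem measurable_pr : Measurable pr := measurable_fst.div measurable_snd

theorem contDiffOn_pr {n : WithTop ℕ∞} : ContDiffOn ℝ n pr Gp := by
  intro M hM
  have h : ContDiffAt ℝ n (fun z : ℂ => z⁻¹) M.2 :=
    (contDiffAt_inv ℂ (snd_ne_zero hM)).restrict_scalars ℝ
  have h2 : ContDiffAt ℝ n (fun N : E => N.1 * N.2⁻¹) M :=
    contDiffAt_fst.mul (h.comp M contDiffAt_snd)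
  have : pr = fun N : E => N.1 * N.2⁻¹ := by funext N; simp [pr, div_eq_mul_inv]
  rw [this]; exact h2.contDiffWithinAt

@[fun_prop] theorem continuous_rot {X : Type} [TopologicalSpace X] {f : X → ℝ} {g : X → E}
    (hf : Continuous f) (hg : Continuous g) : Continuous fun x => rot (f x) (g x) := by
  unfold rot; fun_prop

@[fun_prop] theorem continuous_fl {X : Type} [TopologicalSpace X] {f : X → ℝ} {g : X → E}
    (hf : Continuous f) (hg : Continuous g) : Continuous fun x => fl (f x) (g x) := by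
  unfold fl; fun_prop

@[fun_prop] theorem continuous_mul' {X : Type} [TopologicalSpace X] {f g : X → E}
    (hf : Continuous f) (hg : Continuous g) : Continuous fun x => mul (f x) (g x) := by
  unfold mul; fun_prop

theorem continuous_act (γ : SL(2, ℤ)) : Continuous (act γ) := by
  unfold act; fun_prop

/-- conjugation as a real linear map -/
noncomputable def starL : E →L[ℝ] E := (conjCLE : ℂ →L[ℝ] ℂ).prodMap (conjCLE : ℂ →L[ℝ] ℂ)

theorem starL_apply (M : E) : starL M = star M := rfl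

theorem contDiff_star {n : WithTop ℕ∞} : ContDiff ℝ n fun M : E => star M := starL.contDiff

theorem contDiff_fl (s : ℝ) {n : WithTop ℕ∞} : ContDiff ℝ n (fl s) :=
  (contDiff_id.const_smul _).add (contDiff_star.const_smul _)

theorem contDiff_rot (θ : ℝ) {n : WithTop ℕ∞} : ContDiff ℝ n (rot θ) :=
  contDiff_id.const_smul _

theorem contDiff_act (γ : SL(2, ℤ)) {n : WithTop ℕ∞} : ContDiff ℝ n (act γ) := by
  unfold act; fun_prop

theorem isOpen_Gp : IsOpen Gp := isOpen_lt continuous_const continuous_dt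

theorem isOpen_Up : IsOpen Up := isOpen_lt continuous_const continuous_im

theorem isClosed_Sh : IsClosed Sh :=
  (isClosed_le continuous_const continuous_dt).inter (isClosed_le continuous_dt continuous_const)

theorem Sh_subset : Sh ⊆ Gp := fun _ h => lt_of_lt_of_le one_pos h.1

theorem measurableSet_Sh : MeasurableSet Sh := isClosed_Sh.measurableSet

theorem measurableSet_Fd : MeasurableSet Fd := by
  refine (isOpen_Up.measurableSet).inter (IsClosed.measurableSet ?_)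
  exact (isClosed_le continuous_re.abs continuous_const).inter
    (isClosed_le continuous_const continuous_norm)

theorem measurableSet_Fe : MeasurableSet Fe :=
  measurableSet_Sh.inter (measurable_pr measurableSet_Fd)

theorem isCompact_Bl (ρ : ℝ) : IsCompact (Bl ρ) :=
  (isCompact_closedBall 0 ρ).inter_left isClosed_Sh

theorem measurableSet_Bl (ρ : ℝ) : MeasurableSet (Bl ρ) := (isCompact_Bl ρ).measurableSet

theorem rot_mem_Bl (θ ρ : ℝ) (M : E) : rot θ M ∈ Bl ρ ↔ M ∈ Bl ρ := by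
  simp only [Bl, Sh, mem_inter_iff, mem_ofPred_eq, dt_rot, mem_closedBall_zero_iff, norm_rot]

theorem ae_mem_Sh : ∀ᵐ M ∂nu, M ∈ Sh := ae_restrict_mem measurableSet_Sh

instance : IsLocallyFiniteMeasure nu := by unfold nu; infer_instance

instance : SFinite nu := by unfold nu; infer_instance

theorem isCompact_Zs {Q : Set E} {J : Set ℝ} (hQ : IsCompact Q) (hJ : IsCompact J) :
    IsCompact (Zs Q J) := by
  have hc : IsCompact (Q ×ˢ (Icc (0 : ℝ) 1) ×ˢ (Icc (0 : ℝ) 1) ×ˢ J ×ˢ (Icc (1 / 2 : ℝ) 2)) :=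
    hQ.prod (isCompact_Icc.prod (isCompact_Icc.prod (hJ.prod isCompact_Icc)))
  have hf : Continuous fun p : E × ℝ × ℝ × ℝ × ℝ =>
      ((fl p.2.1 p.1, p.2.2.2.2 • fl p.2.2.1 (rot p.2.2.2.1 p.1)) : E × E) := by fun_prop
  convert hc.image hf using 1
  ext P
  constructor
  · rintro ⟨M, hM, a, ha, b, hb, θ, hθ, s, hs, h1, h2⟩
    exact ⟨(M, a, b, θ, s), ⟨hM, ha, hb, hθ, hs⟩, Prod.ext h1.symm h2.symm⟩
  · rintro ⟨⟨M, a, b, θ, s⟩, ⟨hM, ha, hb, hθ, hs⟩, rfl⟩
    exact ⟨M, hM, a, ha, b, hb, θ, hθ, s, hs, rfl, rfl⟩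

instance haar_E : (volume : Measure E).IsAddHaarMeasure :=
  Measure.prod.instIsAddHaarMeasure _ _

theorem mp_linear (L : E →ₗ[ℝ] E) (h : |LinearMap.det L| = 1) :
    MeasurePreserving L volume volume := by
  refine ⟨L.continuous_of_finiteDimensional.measurable, ?_⟩
  have h0 : LinearMap.det L ≠ 0 := by intro h0; rw [h0] at h; simp at h
  rw [Measure.map_linearMap_addHaar_eq_smul_addHaar _ h0, abs_inv, h]; simp

theorem det_of_coords (L : E →ₗ[ℝ] E) (a : Matrix (Fin 4) (Fin 4) ℝ)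
    (h : ∀ M : E, (L M).1.re = a 0 0 * M.1.re + a 0 1 * M.1.im + a 0 2 * M.2.re + a 0 3 * M.2.im ∧
      (L M).1.im = a 1 0 * M.1.re + a 1 1 * M.1.im + a 1 2 * M.2.re + a 1 3 * M.2.im ∧
      (L M).2.re = a 2 0 * M.1.re + a 2 1 * M.1.im + a 2 2 * M.2.re + a 2 3 * M.2.im ∧
      (L M).2.im = a 3 0 * M.1.re + a 3 1 * M.1.im + a 3 2 * M.2.re + a 3 3 * M.2.im) :
    LinearMap.det L = a.det := by
  let b : Module.Basis (Fin 4) ℝ E := (basisOneI.prod basisOneI).reindex finSumFinEquiv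
  rw [← LinearMap.det_toMatrix b]
  congr 1
  ext i j
  rw [LinearMap.toMatrix_apply]
  have hr : ∀ M : E, b.repr M 0 = M.1.re ∧ b.repr M 1 = M.1.im ∧ b.repr M 2 = M.2.re ∧
      b.repr M 3 = M.2.im := fun M => ⟨rfl, rfl, rfl, rfl⟩
  have hb : b 0 = (1, 0) ∧ b 1 = (I, 0) ∧ b 2 = (0, 1) ∧ b 3 = (0, I) := by
    refine ⟨?_, ?_, ?_, ?_⟩ <;> rw [Module.Basis.reindex_apply]
    · rw [show (finSumFinEquiv.symm (0 : Fin (2 + 2))) = Sum.inl 0 from rfl]; simp
    · rw [show (finSumFinEquiv.symm (1 : Fin (2 + 2))) = Sum.inl 1 from rfl]; simp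
    · rw [show (finSumFinEquiv.symm (2 : Fin (2 + 2))) = Sum.inr 0 from rfl]; simp
    · rw [show (finSumFinEquiv.symm (3 : Fin (2 + 2))) = Sum.inr 1 from rfl]; simp
  obtain ⟨b0, b1, b2, b3⟩ := hb
  fin_cases i <;> fin_cases j <;>
    simp [(hr _).1, (hr _).2.1, (hr _).2.2.1, (hr _).2.2.2, (h _).1, (h _).2.1, (h _).2.2.1,
      (h _).2.2.2, b0, b1, b2, b3]

/-- left multiplication as a linear map -/
noncomputable def mulL (A : E) : E →ₗ[ℝ] E where
  toFun := mul A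
  map_add' M N := by
    simp only [mul, Prod.fst_add, Prod.snd_add, smul_add, Prod.mk_add_mk]
    refine Prod.ext ?_ ?_ <;> simp only <;> abel
  map_smul' s M := mul_smul' A s M

theorem det_mulL (A : E) : LinearMap.det (mulL A) = dt A ^ 2 := by
  rw [det_of_coords (mulL A) !![A.1.im, 0, A.1.re, 0; 0, A.1.im, 0, A.1.re;
    A.2.im, 0, A.2.re, 0; 0, A.2.im, 0, A.2.re]]
  · simp [Matrix.det_succ_row_zero, Fin.sum_univ_succ, Fin.succAbove, dt]; ring
  · intro M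
    obtain ⟨h1, h2, h3, h4⟩ := mul_apply' A M
    refine ⟨?_, ?_, ?_, ?_⟩ <;> simp [mulL, h1, h2, h3, h4]

theorem mp_mul {A : E} (hA : dt A = 1) : MeasurePreserving (mul A) volume volume :=
  mp_linear (mulL A) (by rw [det_mulL, hA]; simp)

theorem mp_nu {T : E → E} (hT : MeasurePreserving T volume volume) (hd : ∀ M, dt (T M) = dt M) :
    MeasurePreserving T nu nu := by
  have h := hT.restrict_preimage measurableSet_Sh
  have : T ⁻¹' Sh = Sh := by ext M; simp only [Sh, mem_preimage, mem_ofPred_eq, hd]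
  rwa [this] at h

theorem mp_mul_nu {A : E} (hA : dt A = 1) : MeasurePreserving (mul A) nu nu :=
  mp_nu (mp_mul hA) fun M => by rw [dt_mul, hA, one_mul]

noncomputable def rotL (θ : ℝ) : E →ₗ[ℝ] E where
  toFun := rot θ
  map_add' M N := by simp only [rot, smul_add]
  map_smul' s M := rot_smul θ s M

noncomputable def flL (s : ℝ) : E →ₗ[ℝ] E where
  toFun := fl s
  map_add' M N := by simp only [fl, smul_add, star_add]; abel
  map_smul' r M := fl_smul s r M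

theorem mp_rot (θ : ℝ) : MeasurePreserving (rot θ) nu nu := by
  refine mp_nu (mp_linear (rotL θ) ?_) (dt_rot θ)
  rw [det_of_coords (rotL θ) !![Real.cos θ, -Real.sin θ, 0, 0; Real.sin θ, Real.cos θ, 0, 0;
    0, 0, Real.cos θ, -Real.sin θ; 0, 0, Real.sin θ, Real.cos θ]]
  · have : Matrix.det !![Real.cos θ, -Real.sin θ, 0, 0; Real.sin θ, Real.cos θ, 0, 0;
      0, 0, Real.cos θ, -Real.sin θ; 0, 0, Real.sin θ, Real.cos θ]
        = (Real.sin θ ^ 2 + Real.cos θ ^ 2) ^ 2 := by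
      simp [Matrix.det_succ_row_zero, Fin.sum_univ_succ, Fin.succAbove, -Real.sin_sq_add_cos_sq]
      ring
    rw [this, Real.sin_sq_add_cos_sq]; simp
  · intro M
    obtain ⟨h1, h2, h3, h4⟩ := rot_apply θ M
    refine ⟨?_, ?_, ?_, ?_⟩ <;> simp [rotL, h1, h2, h3, h4] <;> ring

theorem mp_fl (s : ℝ) : MeasurePreserving (fl s) nu nu := by
  refine mp_nu (mp_linear (flL s) ?_) (dt_fl s)
  rw [det_of_coords (flL s) !![Real.exp s, 0, 0, 0; 0, Real.exp (-s), 0, 0;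
    0, 0, Real.exp s, 0; 0, 0, 0, Real.exp (-s)]]
  · have : Matrix.det !![Real.exp s, 0, 0, 0; 0, Real.exp (-s), 0, 0;
      0, 0, Real.exp s, 0; 0, 0, 0, Real.exp (-s)] = (Real.exp s * Real.exp (-s)) ^ 2 := by
      simp [Matrix.det_succ_row_zero, Fin.sum_univ_succ, Fin.succAbove]
      ring
    rw [this, ← Real.exp_add]; simp
  · intro M
    obtain ⟨h1, h2, h3, h4⟩ := fl_apply s M
    refine ⟨?_, ?_, ?_, ?_⟩ <;> simp [flL, h1, h2, h3, h4]

theorem mp_act (γ : SL(2, ℤ)) : MeasurePreserving (act γ) nu nu := by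
  have : act γ = mul (act γ one) := funext (act_eq_mul γ)
  rw [this]; exact mp_mul_nu (by rw [dt_act, dt_one])

theorem me_of_inv {T S : E → E} (hT : Continuous T) (hS : Continuous S) (h1 : ∀ M, S (T M) = M)
    (h2 : ∀ M, T (S M) = M) : MeasurableEmbedding T :=
  (Homeomorph.mk ⟨T, S, h1, h2⟩ hT hS).measurableEmbedding

theorem me_rot (θ : ℝ) : MeasurableEmbedding (rot θ) :=
  me_of_inv (S := rot (-θ)) (by fun_prop) (by fun_prop)
    (fun M => by rw [rot_rot]; simp [rot_zero]) (fun M => by rw [rot_rot]; simp [rot_zero])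

theorem me_fl (s : ℝ) : MeasurableEmbedding (fl s) :=
  me_of_inv (S := fl (-s)) (by fun_prop) (by fun_prop)
    (fun M => by rw [fl_fl]; simp [fl_zero]) (fun M => by rw [fl_fl]; simp [fl_zero])

theorem me_act (γ : SL(2, ℤ)) : MeasurableEmbedding (act γ) :=
  me_of_inv (S := act γ⁻¹) (continuous_act _) (continuous_act _)
    (fun M => by rw [← act_mul]; simp [act_one]) (fun M => by rw [← act_mul]; simp [act_one])

theorem integrableOn_of_cont {F : Type} [NormedAddCommGroup F] {h : E → F}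
    (hc : ContinuousOn h Gp) {Q : Set E} (hQ : IsCompact Q) (hs : Q ⊆ Sh) :
    IntegrableOn h Q nu :=
  (hc.mono (hs.trans Sh_subset)).integrableOn_compact hQ

theorem integrable_of_cont {F : Type} [NormedAddCommGroup F] {h : E → F}
    (hc : ContinuousOn h Gp) {ρ : ℝ} (hs : ∀ M ∈ Sh, ρ < ‖M‖ → h M = 0) :
    Integrable h nu := by
  have h1 : IntegrableOn h (Bl ρ) volume :=
    (hc.mono (inter_subset_left.trans Sh_subset)).integrableOn_compact (isCompact_Bl ρ)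
  refine h1.of_forall_sdiff_eq_zero measurableSet_Sh fun M hM => hs M hM.1 ?_
  by_contra hn
  exact hM.2 ⟨hM.1, mem_closedBall_zero_iff.2 (not_lt.1 hn)⟩

theorem Van.sh {h : E → ℂ} (hv : Van h) : ∃ ρ : ℝ, ∀ M ∈ Sh, ρ < ‖M‖ → h M = 0 := by
  obtain ⟨ρ, hρ⟩ := hv
  exact ⟨ρ, fun M hM h' => hρ M (by linarith [hM.1]) (by linarith [hM.2]) h'⟩

theorem Van.mul {h : E → ℂ} (hv : Van h) (g : E → ℂ) : Van fun M => h M * g M := by
  obtain ⟨ρ, hρ⟩ := hv
  exact ⟨ρ, fun M h1 h2 h3 => by simp [hρ M h1 h2 h3]⟩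

theorem Van.integrable {h : E → ℂ} (hv : Van h) (hc : ContinuousOn h Gp) : Integrable h nu := by
  obtain ⟨ρ, hρ⟩ := hv.sh
  exact integrable_of_cont hc hρ

theorem Test.cont {Ψ : E → ℂ} (h : Test Ψ) : ContinuousOn Ψ Gp := h.smooth.continuousOn

/-- a test function is bounded on the shell and vanishes there outside a ball -/
theorem Test.bound {Ψ : E → ℂ} (h : Test Ψ) :
    ∃ A ρ : ℝ, 0 ≤ A ∧ (∀ M ∈ Sh, ‖Ψ M‖ ≤ A) ∧ ∀ M ∈ Sh, M ∉ Bl ρ → Ψ M = 0 := by
  obtain ⟨ρ, hρ⟩ := h.van.sh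
  obtain ⟨C, hC⟩ := (isCompact_Bl ρ).exists_bound_of_continuousOn
    (h.cont.mono (inter_subset_left.trans Sh_subset))
  have hz : ∀ M ∈ Sh, M ∉ Bl ρ → Ψ M = 0 := fun M hM hn => hρ M hM (by
    by_contra h'
    exact hn ⟨hM, mem_closedBall_zero_iff.2 (not_lt.1 h')⟩)
  refine ⟨max C 0, ρ, le_max_right _ _, fun M hM => ?_, hz⟩
  by_cases hb : M ∈ Bl ρ
  · exact (hC M hb).trans (le_max_left _ _)
  · rw [hz M hM hb]; simp

/-- smooth rotation invariant cutoffs -/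
theorem exists_cutoff (ρ : ℝ) : ∃ χ : E → ℝ, ContDiff ℝ (⊤ : ℕ∞) χ ∧ HasCompactSupport χ ∧
    (∀ M, 0 ≤ χ M ∧ χ M ≤ 1) ∧ (∀ M, ‖M‖ ≤ ρ → χ M = 1) ∧ (∀ θ M, χ (rot θ M) = χ M) ∧
    Test fun M => (χ M : ℂ) := by
  set q : E → ℝ := fun M => M.1.re ^ 2 + M.1.im ^ 2 + (M.2.re ^ 2 + M.2.im ^ 2) with hq
  have hq1 : ∀ M : E, q M = ‖M.1‖ ^ 2 + ‖M.2‖ ^ 2 := fun M => by
    simp only [hq, Complex.sq_norm, normSq_apply]; ring
  have hqs : ContDiff ℝ (⊤ : ℕ∞) q := by
    have h1 : ContDiff ℝ (⊤ : ℕ∞) fun M : E => M.1.re := reCLM.contDiff.comp contDiff_fst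
    have h2 : ContDiff ℝ (⊤ : ℕ∞) fun M : E => M.1.im := imCLM.contDiff.comp contDiff_fst
    have h3 : ContDiff ℝ (⊤ : ℕ∞) fun M : E => M.2.re := reCLM.contDiff.comp contDiff_snd
    have h4 : ContDiff ℝ (⊤ : ℕ∞) fun M : E => M.2.im := imCLM.contDiff.comp contDiff_snd
    exact ((h1.pow 2).add (h2.pow 2)).add ((h3.pow 2).add (h4.pow 2))
  set χ : E → ℝ := fun M => Real.smoothTransition (2 * ρ ^ 2 + 1 - q M) with hχ
  have hs : ContDiff ℝ (⊤ : ℕ∞) χ :=
    Real.smoothTransition.contDiff.comp (contDiff_const.sub hqs)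
  have hz : ∀ M : E, 2 * ρ ^ 2 + 1 < ‖M‖ → χ M = 0 := by
    intro M hM
    apply Real.smoothTransition.zero_of_nonpos
    rw [hq1]
    have h1 : 1 ≤ ‖M‖ := by nlinarith [sq_nonneg ρ]
    have h2 : ‖M‖ ^ 2 ≤ ‖M.1‖ ^ 2 + ‖M.2‖ ^ 2 := by
      rw [Prod.norm_def]
      rcases le_total ‖M.1‖ ‖M.2‖ with h | h
      · rw [max_eq_right h]; nlinarith [sq_nonneg ‖M.1‖]
      · rw [max_eq_left h]; nlinarith [sq_nonneg ‖M.2‖]
    nlinarith
  refine ⟨χ, hs, ?_, fun M => ⟨Real.smoothTransition.nonneg _, Real.smoothTransition.le_one _⟩,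
    fun M hM => ?_, fun θ M => ?_, ⟨?_, 2 * ρ ^ 2 + 1, fun M _ _ h => by simp [hz M h]⟩⟩
  · refine HasCompactSupport.intro (isCompact_closedBall (0 : E) (2 * ρ ^ 2 + 1)) fun M hM => hz M ?_
    simpa using hM
  · apply Real.smoothTransition.one_of_one_le
    rw [hq1]
    have h1 : ‖M.1‖ ≤ ρ := (norm_fst_le M).trans hM
    have h2 : ‖M.2‖ ≤ ρ := (norm_snd_le M).trans hM
    nlinarith [norm_nonneg M.1, norm_nonneg M.2]
  · simp only [hχ, hq1, rot, Prod.smul_fst, Prod.smul_snd, norm_smul,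
      Complex.norm_exp_ofReal_mul_I, one_mul]
  · exact (ofRealCLM.contDiff.comp hs).contDiffOn

/-! ### The vector fields -/

theorem X1_eq (h : E → ℂ) (M : E) : X1 h M = Ra h M + Lo h M := by
  simp only [Ra, Lo]; ring

theorem star_fl (s : ℝ) (M : E) : star (fl s M) = Real.sinh s • M + Real.cosh s • star M := by
  simp only [fl, star_add, star_smul, star_star, star_trivial]; abel

theorem hasDerivAt_fl {h : E → ℂ} {M : E} {s : ℝ} (hd : DifferentiableAt ℝ h (fl s M)) :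
    HasDerivAt (fun r => h (fl r M)) (X1 h (fl s M)) s := by
  have h1 : HasDerivAt (fun r => fl r M) (star (fl s M)) s := by
    rw [star_fl]
    exact ((Real.hasDerivAt_cosh s).smul_const M).add ((Real.hasDerivAt_sinh s).smul_const _)
  exact hd.hasFDerivAt.comp_hasDerivAt s h1

theorem hasDerivAt_rot {h : E → ℂ} {M : E} {θ : ℝ} (hd : DifferentiableAt ℝ h (rot θ M)) :
    HasDerivAt (fun r => h (rot r M)) (X3 h (rot θ M)) θ := by
  have h0 : HasDerivAt (fun r : ℝ => Complex.exp (r * I)) (Complex.exp (θ * I) * I) θ := by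
    have := ((Complex.ofRealCLM.hasDerivAt (x := θ)).mul_const I).cexp
    simpa using this
  have h1 : HasDerivAt (fun r => rot r M) (I • rot θ M) θ := by
    have := h0.smul_const M
    rwa [mul_comm, mul_smul] at this
  exact hd.hasFDerivAt.comp_hasDerivAt θ h1

theorem fderiv_mul_apply {g h : E → ℂ} {M : E} (hg : DifferentiableAt ℝ g M)
    (hh : DifferentiableAt ℝ h M) (v : E) :
    fderiv ℝ (fun N => g N * h N) M v = fderiv ℝ g M v * h M + g M * fderiv ℝ h M v := by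
  rw [fderiv_fun_mul hg hh]; simp; ring

theorem Ra_mul {g h : E → ℂ} {M : E} (hg : DifferentiableAt ℝ g M) (hh : DifferentiableAt ℝ h M) :
    Ra (fun N => g N * h N) M = Ra g M * h M + g M * Ra h M := by
  simp only [Ra, X1, X2, fderiv_mul_apply hg hh]; ring

theorem Lo_mul {g h : E → ℂ} {M : E} (hg : DifferentiableAt ℝ g M) (hh : DifferentiableAt ℝ h M) :
    Lo (fun N => g N * h N) M = Lo g M * h M + g M * Lo h M := by
  simp only [Lo, X1, X2, fderiv_mul_apply hg hh]; ring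

theorem X3_mul {g h : E → ℂ} {M : E} (hg : DifferentiableAt ℝ g M) (hh : DifferentiableAt ℝ h M) :
    X3 (fun N => g N * h N) M = X3 g M * h M + g M * X3 h M := by
  simp only [X3, fderiv_mul_apply hg hh]

theorem fderiv_conj_apply (h : E → ℂ) (M v : E) :
    fderiv ℝ (fun N => (starRingEnd ℂ) (h N)) M v = (starRingEnd ℂ) (fderiv ℝ h M v) := by
  have := conjCLE.comp_fderiv (f := h) (x := M)
  have h2 : (fun N => (starRingEnd ℂ) (h N)) = conjCLE ∘ h := rfl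
  rw [h2, this]; rfl

theorem Ra_conj (h : E → ℂ) (M : E) :
    Ra (fun N => (starRingEnd ℂ) (h N)) M = (starRingEnd ℂ) (Lo h M) := by
  simp only [Ra, Lo, X1, X2, fderiv_conj_apply, map_div₀, map_sub, map_mul, conj_I, conj_ofNat]
  ring

theorem Lo_conj (h : E → ℂ) (M : E) :
    Lo (fun N => (starRingEnd ℂ) (h N)) M = (starRingEnd ℂ) (Ra h M) := by
  simp only [Ra, Lo, X1, X2, fderiv_conj_apply, map_div₀, map_add, map_mul, conj_I, conj_ofNat]
  ring

theorem X3_conj (h : E → ℂ) (M : E) :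
    X3 (fun N => (starRingEnd ℂ) (h N)) M = (starRingEnd ℂ) (X3 h M) := by
  simp only [X3, fderiv_conj_apply]

theorem fderiv_sum_apply {ι : Type} (S : Finset ι) (c : ι → ℂ) {h : ι → E → ℂ} {M : E}
    (hd : ∀ i ∈ S, DifferentiableAt ℝ (h i) M) (v : E) :
    fderiv ℝ (fun N => ∑ i ∈ S, c i * h i N) M v = ∑ i ∈ S, c i * fderiv ℝ (h i) M v := by
  rw [fderiv_fun_sum fun i hi => (hd i hi).const_mul (c i)]
  simp only [_root_.sum_apply]
  refine Finset.sum_congr rfl fun i hi => ?_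
  rw [fderiv_const_mul (hd i hi)]; simp

theorem Ra_sum {ι : Type} (S : Finset ι) (c : ι → ℂ) {h : ι → E → ℂ} {M : E}
    (hd : ∀ i ∈ S, DifferentiableAt ℝ (h i) M) :
    Ra (fun N => ∑ i ∈ S, c i * h i N) M = ∑ i ∈ S, c i * Ra (h i) M := by
  simp only [Ra, X1, X2, fderiv_sum_apply S c hd, Finset.mul_sum, ← Finset.sum_add_distrib,
    Finset.sum_div]
  exact Finset.sum_congr rfl fun i _ => by ring

theorem Lo_sum {ι : Type} (S : Finset ι) (c : ι → ℂ) {h : ι → E → ℂ} {M : E}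
    (hd : ∀ i ∈ S, DifferentiableAt ℝ (h i) M) :
    Lo (fun N => ∑ i ∈ S, c i * h i N) M = ∑ i ∈ S, c i * Lo (h i) M := by
  simp only [Lo, X1, X2, fderiv_sum_apply S c hd, Finset.mul_sum, ← Finset.sum_sub_distrib,
    Finset.sum_div]
  exact Finset.sum_congr rfl fun i _ => by ring

theorem X3_sum {ι : Type} (S : Finset ι) (c : ι → ℂ) {h : ι → E → ℂ} {M : E}
    (hd : ∀ i ∈ S, DifferentiableAt ℝ (h i) M) :
    X3 (fun N => ∑ i ∈ S, c i * h i N) M = ∑ i ∈ S, c i * X3 (h i) M := by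
  simp only [X3, fderiv_sum_apply S c hd]

theorem contDiffOn_field {h : E → ℂ} {m n : WithTop ℕ∞} (hh : ContDiffOn ℝ n h Gp)
    (hmn : m + 1 ≤ n) {V : E → E} (hV : ContDiff ℝ m V) :
    ContDiffOn ℝ m (fun M => fderiv ℝ h M (V M)) Gp :=
  (hh.fderiv_of_isOpen isOpen_Gp hmn).clm_apply hV.contDiffOn

theorem contDiffOn_Ra {h : E → ℂ} {m n : WithTop ℕ∞} (hh : ContDiffOn ℝ n h Gp) (hmn : m + 1 ≤ n) :
    ContDiffOn ℝ m (Ra h) Gp :=
  ((contDiffOn_field hh hmn contDiff_star).add (contDiffOn_const.mul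
    (contDiffOn_field hh hmn (contDiff_star.const_smul I)))).div_const 2

theorem contDiffOn_Lo {h : E → ℂ} {m n : WithTop ℕ∞} (hh : ContDiffOn ℝ n h Gp) (hmn : m + 1 ≤ n) :
    ContDiffOn ℝ m (Lo h) Gp :=
  ((contDiffOn_field hh hmn contDiff_star).sub (contDiffOn_const.mul
    (contDiffOn_field hh hmn (contDiff_star.const_smul I)))).div_const 2

theorem contDiffOn_X3 {h : E → ℂ} {m n : WithTop ℕ∞} (hh : ContDiffOn ℝ n h Gp) (hmn : m + 1 ≤ n) :
    ContDiffOn ℝ m (X3 h) Gp :=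
  contDiffOn_field hh hmn (contDiff_id.const_smul I)

theorem Van.fderiv {h : E → ℂ} (hv : Van h) :
    ∃ ρ : ℝ, ∀ M : E, 1 / 2 < dt M → dt M < 5 → ρ < ‖M‖ → h M = 0 ∧ fderiv ℝ h M = 0 := by
  obtain ⟨ρ, hρ⟩ := hv
  refine ⟨ρ, fun M h1 h2 h3 => ⟨hρ M h1 h2 h3, ?_⟩⟩
  have ho : IsOpen {M : E | 1 / 2 < dt M ∧ dt M < 5 ∧ ρ < ‖M‖} :=
    (isOpen_lt continuous_const continuous_dt).inter
      ((isOpen_lt continuous_dt continuous_const).inter (isOpen_lt continuous_const continuous_norm))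
  have : h =ᶠ[𝓝 M] fun _ => 0 :=
    Filter.eventually_of_mem (ho.mem_nhds ⟨h1, h2, h3⟩) fun N hN => hρ N hN.1 hN.2.1 hN.2.2
  rw [this.fderiv_eq]; simp

theorem top_add_one : ((⊤ : ℕ∞) : WithTop ℕ∞) + 1 ≤ ((⊤ : ℕ∞) : WithTop ℕ∞) := le_of_eq rfl

theorem Test.ra {Ψ : E → ℂ} (h : Test Ψ) : Test (Ra Ψ) := by
  obtain ⟨ρ, hρ⟩ := h.van.fderiv
  exact ⟨contDiffOn_Ra h.smooth top_add_one, ρ, fun M h1 h2 h3 => by
    simp [Ra, X1, X2, (hρ M h1 h2 h3).2]⟩

theorem Test.lo {Ψ : E → ℂ} (h : Test Ψ) : Test (Lo Ψ) := by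
  obtain ⟨ρ, hρ⟩ := h.van.fderiv
  exact ⟨contDiffOn_Lo h.smooth top_add_one, ρ, fun M h1 h2 h3 => by
    simp [Lo, X1, X2, (hρ M h1 h2 h3).2]⟩

theorem Test.x3 {Ψ : E → ℂ} (h : Test Ψ) : Test (X3 Ψ) := by
  obtain ⟨ρ, hρ⟩ := h.van.fderiv
  exact ⟨contDiffOn_X3 h.smooth top_add_one, ρ, fun M h1 h2 h3 => by
    simp [X3, (hρ M h1 h2 h3).2]⟩

theorem Test.diffAt {Ψ : E → ℂ} (h : Test Ψ) {M : E} (hM : M ∈ Gp) :
    DifferentiableAt ℝ Ψ M :=
  (h.smooth.contDiffAt (isOpen_Gp.mem_nhds hM)).differentiableAt (by simp)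

/-- the integral of the derivative along a measure preserving flow vanishes -/
theorem ibp_flow {T : ℝ → E → E} {h g : E → ℂ} (hT : Continuous fun p : ℝ × E => T p.1 p.2)
    (hm : ∀ s, MeasurePreserving (T s) nu nu) (he : ∀ s, MeasurableEmbedding (T s))
    (hd : ∀ s M, dt (T s M) = dt M) (h0 : ∀ M, T 0 M = M) {C : ℝ} (hC : 0 < C)
    (hn : ∀ s ∈ Icc (0 : ℝ) 1, ∀ M, ‖M‖ ≤ C * ‖T s M‖)
    (hg : ContinuousOn g Gp) {ρ : ℝ} (hz : ∀ M ∈ Sh, ρ < ‖M‖ → g M = 0)
    (hi : Integrable h nu)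
    (hder : ∀ M ∈ Gp, ∀ s, HasDerivAt (fun r => h (T r M)) (g (T s M)) s) :
    ∫ M, g M ∂nu = 0 := by
  have hGp : ∀ s M, M ∈ Gp → T s M ∈ Gp := fun s M hM => by
    show 0 < dt _; rw [hd]; exact hM
  have hc : ContinuousOn (fun p : ℝ × E => g (T p.1 p.2)) (univ ×ˢ Gp) :=
    hg.comp hT.continuousOn fun p hp => hGp _ _ hp.2
  have hI : Integrable (Function.uncurry fun (s : ℝ) (M : E) => g (T s M))
      ((volume.restrict (Ioc (0 : ℝ) 1)).prod nu) := by
    rw [nu, Measure.prod_restrict]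
    have h1 : IntegrableOn (fun p : ℝ × E => g (T p.1 p.2)) (Icc (0 : ℝ) 1 ×ˢ Bl (C * ρ))
        (volume.prod volume) :=
      (hc.mono (prod_mono (subset_univ _) (inter_subset_left.trans Sh_subset))).integrableOn_compact
        (isCompact_Icc.prod (isCompact_Bl _))
    refine h1.of_forall_sdiff_eq_zero (measurableSet_Ioc.prod measurableSet_Sh) ?_
    rintro ⟨s, M⟩ ⟨⟨hs, hM⟩, hn'⟩
    have hs' : s ∈ Icc (0 : ℝ) 1 := Ioc_subset_Icc_self hs
    refine hz _ (by simpa only [Sh, mem_ofPred_eq, hd] using hM) ?_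
    by_contra hle
    refine hn' ⟨hs', hM, mem_closedBall_zero_iff.2 ?_⟩
    exact (hn s hs' M).trans (mul_le_mul_of_nonneg_left (not_lt.1 hle) hC.le)
  have h1 : ∫ s in Ioc (0 : ℝ) 1, ∫ M, g (T s M) ∂nu = ∫ M, g M ∂nu := by
    simp only [fun s => (hm s).integral_comp (he s) g]
    simp
  have h2 : ∫ M, (∫ s in Ioc (0 : ℝ) 1, g (T s M)) ∂nu = ∫ M, (h (T 1 M) - h M) ∂nu := by
    refine integral_congr_ae (ae_mem_Sh.mono fun M hM => ?_)
    have hM' := Sh_subset hM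
    simp only
    rw [← intervalIntegral.integral_of_le zero_le_one,
      intervalIntegral.integral_eq_sub_of_hasDerivAt (fun s _ => hder M hM' s), h0]
    refine ContinuousOn.intervalIntegrable ?_
    exact hc.comp (f := fun s : ℝ => (s, M)) (by fun_prop) fun s _ => ⟨trivial, hM'⟩
  have h3 : Integrable (fun M => h (T 1 M)) nu := ((hm 1).integrable_comp_emb (he 1)).2 hi
  rw [← h1, integral_integral_swap hI, h2, integral_sub h3 hi, (hm 1).integral_comp (he 1) h,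
    sub_self]

theorem ibp_X1 {h : E → ℂ} (hc : ContDiffOn ℝ 1 h Gp) (hv : Van h) : ∫ M, X1 h M ∂nu = 0 := by
  obtain ⟨ρ, hρ⟩ := hv.fderiv
  refine ibp_flow (T := fl) (h := h) (by fun_prop) mp_fl me_fl dt_fl fl_zero
    (Real.exp_pos 1) (fun s hs M => ?_)
    (contDiffOn_field (m := 0) hc (by simp) contDiff_star).continuousOn (ρ := ρ)
    (fun M hM h3 => ?_) (hv.integrable hc.continuousOn) fun M hM s => hasDerivAt_fl ?_
  · have := norm_fl_le (-s) (fl s M)
    rw [fl_fl, neg_add_cancel, fl_zero, abs_neg, abs_of_nonneg hs.1] at this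
    exact this.trans (mul_le_mul_of_nonneg_right (Real.exp_le_exp.2 hs.2) (norm_nonneg _))
  · simp [X1, (hρ M (by linarith [hM.1]) (by linarith [hM.2]) h3).2]
  · have : fl s M ∈ Gp := by show 0 < dt _; rw [dt_fl]; exact hM
    exact (hc.contDiffAt (isOpen_Gp.mem_nhds this)).differentiableAt (by simp)

theorem ibp_X3 {h : E → ℂ} (hc : ContDiffOn ℝ 1 h Gp) (hv : Van h) : ∫ M, X3 h M ∂nu = 0 := by
  obtain ⟨ρ, hρ⟩ := hv.fderiv
  refine ibp_flow (T := rot) (h := h) (by fun_prop) mp_rot me_rot dt_rot rot_zero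
    one_pos (fun s _ M => by rw [norm_rot, one_mul])
    (contDiffOn_X3 (m := 0) hc (by simp)).continuousOn (ρ := ρ)
    (fun M hM h3 => ?_) (hv.integrable hc.continuousOn) fun M hM s => hasDerivAt_rot ?_
  · simp [X3, (hρ M (by linarith [hM.1]) (by linarith [hM.2]) h3).2]
  · have : rot s M ∈ Gp := by show 0 < dt _; rw [dt_rot]; exact hM
    exact (hc.contDiffAt (isOpen_Gp.mem_nhds this)).differentiableAt (by simp)

theorem ibp_X2 {h : E → ℂ} (hc : ContDiffOn ℝ 1 h Gp) (hv : Van h) : ∫ M, X2 h M ∂nu = 0 := by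
  set θ : ℝ := Real.pi / 4 with hθ
  have hG : ∀ M ∈ Gp, rot θ M ∈ Gp := fun M hM => by show 0 < dt _; rw [dt_rot]; exact hM
  have h1 : ContDiffOn ℝ 1 (fun M => h (rot θ M)) Gp :=
    hc.comp (contDiff_rot θ).contDiffOn hG
  have h2 : Van fun M => h (rot θ M) := by
    obtain ⟨ρ, hρ⟩ := hv
    exact ⟨ρ, fun M a b c => hρ _ (by rwa [dt_rot]) (by rwa [dt_rot]) (by rwa [norm_rot])⟩
  rw [← (mp_rot θ).integral_comp (me_rot θ), ← ibp_X1 h1 h2]
  refine integral_congr_ae (ae_mem_Sh.mono fun M hM => ?_)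
  have hd : DifferentiableAt ℝ h (rot θ M) :=
    (hc.contDiffAt (isOpen_Gp.mem_nhds (hG M (Sh_subset hM)))).differentiableAt (by simp)
  have hr : HasFDerivAt (rot θ) (Complex.exp (θ * I) • ContinuousLinearMap.id ℝ E) M :=
    (Complex.exp (θ * I) • ContinuousLinearMap.id ℝ E).hasFDerivAt
  have h3 := (hd.hasFDerivAt.comp M hr).fderiv
  simp only [X1, X2]
  rw [show (fun M => h (rot θ M)) = h ∘ rot θ from rfl, h3]
  simp only [ContinuousLinearMap.comp_apply, _root_.smul_apply,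
    ContinuousLinearMap.id_apply]
  congr 1
  rw [rot, star_smul, smul_smul]
  congr 1
  have hI : I = Complex.exp (θ * I) * Complex.exp (θ * I) := by
    rw [← Complex.exp_add, show (θ : ℂ) * I + θ * I = Real.pi / 2 * I by rw [hθ]; push_cast; ring,
      Complex.exp_pi_div_two_mul_I]
  have h4 : Complex.exp (θ * I) * star (Complex.exp (θ * I)) = 1 := by
    rw [star_def, Complex.mul_conj, Complex.normSq_eq_norm_sq, Complex.norm_exp_ofReal_mul_I]; simp
  calc I * star (Complex.exp (θ * I))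
      = Complex.exp (θ * I) * (Complex.exp (θ * I) * star (Complex.exp (θ * I))) := by
        rw [← mul_assoc, ← hI]
    _ = _ := by rw [h4, mul_one]

theorem integrable_X12 {h : E → ℂ} (hc : ContDiffOn ℝ 1 h Gp) (hv : Van h) :
    Integrable (X1 h) nu ∧ Integrable (X2 h) nu := by
  obtain ⟨ρ, hρ⟩ := hv.fderiv
  constructor
  · exact integrable_of_cont (contDiffOn_field (m := 0) hc (by simp) contDiff_star).continuousOn
      (ρ := ρ) fun M hM h3 => by simp [X1, (hρ M (by linarith [hM.1]) (by linarith [hM.2]) h3).2]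
  · exact integrable_of_cont
      (contDiffOn_field (m := 0) hc (by simp) (contDiff_star.const_smul I)).continuousOn
      (ρ := ρ) fun M hM h3 => by simp [X2, (hρ M (by linarith [hM.1]) (by linarith [hM.2]) h3).2]

/-- integration by parts -/
theorem ibp_Ra {h : E → ℂ} (hc : ContDiffOn ℝ 1 h Gp) (hv : Van h) : ∫ M, Ra h M ∂nu = 0 := by
  obtain ⟨h1, h2⟩ := integrable_X12 hc hv
  simp only [Ra]
  rw [integral_div, integral_add h1 (h2.const_mul I), integral_const_mul, ibp_X1 hc hv,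
    ibp_X2 hc hv]; simp

theorem ibp_Lo {h : E → ℂ} (hc : ContDiffOn ℝ 1 h Gp) (hv : Van h) : ∫ M, Lo h M ∂nu = 0 := by
  obtain ⟨h1, h2⟩ := integrable_X12 hc hv
  simp only [Lo]
  rw [integral_div, integral_sub h1 (h2.const_mul I), integral_const_mul, ibp_X1 hc hv,
    ibp_X2 hc hv]; simp

/-! ### The modular group -/

theorem abs_coord_le (M : E) :
    |M.1.re| ≤ ‖M‖ ∧ |M.1.im| ≤ ‖M‖ ∧ |M.2.re| ≤ ‖M‖ ∧ |M.2.im| ≤ ‖M‖ :=
  ⟨(abs_re_le_norm _).trans (norm_fst_le M), (abs_im_le_norm _).trans (norm_fst_le M),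
    (abs_re_le_norm _).trans (norm_snd_le M), (abs_im_le_norm _).trans (norm_snd_le M)⟩

theorem abs_cross_le {a b c d x y : ℝ} (ha : |a| ≤ x) (hb : |b| ≤ y) (hc : |c| ≤ x) (hd : |d| ≤ y) :
    |a * b - c * d| ≤ 2 * (x * y) := by
  have hx : 0 ≤ x := (abs_nonneg _).trans ha
  refine (abs_sub _ _).trans ?_
  rw [abs_mul, abs_mul]
  have h1 := mul_le_mul ha hb (abs_nonneg _) hx
  have h2 := mul_le_mul hc hd (abs_nonneg _) hx
  linarith

theorem finite_act (ρ ρ' d : ℝ) (hd : 0 < d) :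
    {γ : SL(2, ℤ) | ∃ M : E, ‖M‖ ≤ ρ ∧ d ≤ dt M ∧ ‖act γ M‖ ≤ ρ'}.Finite := by
  set B : ℤ := ⌈2 * (ρ' * ρ) / d⌉ with hB
  have hf : (Set.pi univ fun _ : Fin 2 => Set.pi univ fun _ : Fin 2 => Icc (-B) B).Finite :=
    Set.Finite.pi fun _ => Set.Finite.pi fun _ => Set.finite_Icc _ _
  refine Set.Finite.of_finite_image (f := fun γ : SL(2, ℤ) => fun i j => γ i j) (hf.subset ?_)
    fun a _ b _ h => Subtype.ext (by ext i j; exact congrFun (congrFun h i) j)
  rintro _ ⟨γ, ⟨M, h1, h2, h3⟩, rfl⟩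
  obtain ⟨a1, a2, a3, a4⟩ := act_apply γ M
  obtain ⟨b1, b2, b3, b4⟩ := abs_coord_le M
  obtain ⟨c1, c2, c3, c4⟩ := abs_coord_le (act γ M)
  have key : ∀ (n : ℤ), |(n : ℝ) * dt M| ≤ 2 * (ρ' * ρ) → n ∈ Icc (-B) B := by
    intro n hn
    rw [abs_mul, abs_of_pos (hd.trans_le h2)] at hn
    have : |(n : ℝ)| ≤ 2 * (ρ' * ρ) / d := by
      rw [le_div_iff₀ hd]
      exact (mul_le_mul_of_nonneg_left h2 (abs_nonneg _)).trans hn
    have h4 : |(n : ℝ)| ≤ (B : ℝ) := this.trans (Int.le_ceil _)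
    have h5 : |n| ≤ B := by exact_mod_cast h4
    exact abs_le.1 h5
  intro i _ j _
  apply key
  fin_cases i <;> fin_cases j
  · have : (γ 0 0 : ℝ) * dt M = (act γ M).1.im * M.2.re - (act γ M).1.re * M.2.im := by
      rw [a1, a2, dt]; ring
    exact this ▸ abs_cross_le (c2.trans h3) (b3.trans h1) (c1.trans h3) (b4.trans h1)
  · have : (γ 0 1 : ℝ) * dt M = (act γ M).1.re * M.1.im - (act γ M).1.im * M.1.re := by
      rw [a1, a2, dt]; ring
    exact this ▸ abs_cross_le (c1.trans h3) (b2.trans h1) (c2.trans h3) (b1.trans h1)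
  · have : (γ 1 0 : ℝ) * dt M = (act γ M).2.im * M.2.re - (act γ M).2.re * M.2.im := by
      rw [a3, a4, dt]; ring
    exact this ▸ abs_cross_le (c4.trans h3) (b3.trans h1) (c3.trans h3) (b4.trans h1)
  · have : (γ 1 1 : ℝ) * dt M = (act γ M).2.re * M.1.im - (act γ M).2.im * M.1.re := by
      rw [a3, a4, dt]; ring
    exact this ▸ abs_cross_le (c3.trans h3) (b2.trans h1) (c4.trans h3) (b1.trans h1)

theorem act_mem {M : E} (hM : M ∈ Gp) (γ : SL(2, ℤ)) : act γ M ∈ Gp := by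
  show 0 < dt _; rw [dt_act]; exact hM

theorem pr_act_eq (γ : SL(2, ℤ)) {M : E} (hM : M ∈ Gp) :
    pr (act γ M) = ((γ • (⟨pr M, pr_mem hM⟩ : UpperHalfPlane) : UpperHalfPlane) : ℂ) := by
  rw [pr_act γ hM, UpperHalfPlane.specialLinearGroup_apply]; simp

theorem exists_fd {M : E} (hM : M ∈ Gp) : ∃ γ : SL(2, ℤ), pr (act γ M) ∈ Fd := by
  obtain ⟨γ, hγ⟩ := ModularGroup.exists_smul_mem_fd (⟨pr M, pr_mem hM⟩ : UpperHalfPlane)
  refine ⟨γ, pr_mem (act_mem hM γ), ?_, ?_⟩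
  · rw [pr_act_eq γ hM]; exact hγ.2
  · rw [pr_act_eq γ hM]
    have := hγ.1
    rw [normSq_eq_norm_sq] at this
    exact (one_le_sq_iff₀ (norm_nonneg _)).1 this

theorem bound_fd (ρ : ℝ) : ∃ ρ' : ℝ, ∀ M ∈ Bl ρ, ∀ γ : SL(2, ℤ), pr (act γ M) ∈ Fd →
    ‖act γ M‖ ≤ ρ' := by
  refine ⟨8 * |ρ| + 3, fun M hM γ hγ => ?_⟩
  set N := act γ M with hN
  have hd : dt N = dt M := dt_act γ M
  have hNG : N ∈ Gp := act_mem (Sh_subset hM.1) γ
  have hv : 0 < ‖N.2‖ := norm_pos_iff.2 (snd_ne_zero hNG)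
  have hMρ : ‖M‖ ≤ |ρ| := (mem_closedBall_zero_iff.1 hM.2).trans (le_abs_self ρ)
  obtain ⟨hy, hx, hn⟩ := hγ
  have him : (pr N).im * ‖N.2‖ ^ 2 = dt M := by
    rw [im_pr, normSq_eq_norm_sq, hd]; field_simp
  have hy2 : 1 / 2 ≤ (pr N).im := by
    have h1 : 1 ≤ (pr N).re ^ 2 + (pr N).im ^ 2 := by
      have := one_le_pow₀ (n := 2) hn
      rwa [Complex.sq_norm, normSq_apply, ← sq, ← sq] at this
    have h2 : (pr N).re ^ 2 ≤ 1 / 4 := by
      have := abs_le.1 hx; nlinarith [this.1, this.2]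
    nlinarith
  have hv3 : ‖N.2‖ ≤ 3 := by nlinarith [hM.1.2]
  have hlow : 1 ≤ 2 * (‖N.2‖ * |ρ|) := by
    obtain ⟨a1, a2, a3, a4⟩ := act_apply γ M
    obtain ⟨b1, b2, b3, b4⟩ := abs_coord_le M
    have c3 : |N.2.re| ≤ ‖N.2‖ := abs_re_le_norm _
    have c4 : |N.2.im| ≤ ‖N.2‖ := abs_im_le_norm _
    have key : ∀ n : ℤ, n ≠ 0 → 1 ≤ |(n : ℝ) * dt M| := by
      intro n hn
      have h1 : (1 : ℝ) ≤ |(n : ℝ)| := by exact_mod_cast Int.one_le_abs hn
      rw [abs_mul, abs_of_pos (show 0 < dt M from Sh_subset hM.1)]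
      nlinarith [hM.1.1]
    by_cases hc : γ 1 0 = 0
    · have hd1 : γ 1 1 ≠ 0 := by
        intro h0
        have := det_gamma γ
        rw [hc, h0] at this; simp at this
      have : (γ 1 1 : ℝ) * dt M = N.2.re * M.1.im - N.2.im * M.1.re := by
        rw [hN, a3, a4, dt]; ring
      exact (key _ hd1).trans (this ▸ abs_cross_le c3 (b2.trans hMρ) c4 (b1.trans hMρ))
    · have : (γ 1 0 : ℝ) * dt M = N.2.im * M.2.re - N.2.re * M.2.im := by
        rw [hN, a3, a4, dt]; ring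
      exact (key _ hc).trans (this ▸ abs_cross_le c4 (b3.trans hMρ) c3 (b4.trans hMρ))
  have hu : ‖N.1‖ = ‖pr N‖ * ‖N.2‖ := by
    rw [pr, norm_div]; field_simp
  have hp : ‖pr N‖ ≤ 1 / 2 + (pr N).im := by
    refine (norm_le_abs_re_add_abs_im _).trans ?_
    rw [abs_of_pos hy]; linarith
  have h5 : (pr N).im * ‖N.2‖ ≤ 8 * |ρ| := by
    have h6 : (pr N).im * ‖N.2‖ * 1 ≤ (pr N).im * ‖N.2‖ * (2 * (‖N.2‖ * |ρ|)) :=
      mul_le_mul_of_nonneg_left hlow (by positivity)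
    have h7 : (pr N).im * ‖N.2‖ * (2 * (‖N.2‖ * |ρ|)) = 2 * dt M * |ρ| := by rw [← him]; ring
    nlinarith [hM.1.2, abs_nonneg ρ]
  rw [Prod.norm_def]
  refine max_le ?_ (by linarith [abs_nonneg ρ])
  rw [hu]
  nlinarith

/-- invariance under the two generators gives invariance under the group -/
theorem inv_of_gen {α : Type} {F : ℂ → α} (h : ∀ z : ℂ, 0 < z.im → F (z + 1) = F z ∧ F (-z⁻¹) = F z)
    (γ : SL(2, ℤ)) {M : E} (hM : M ∈ Gp) : F (pr (act γ M)) = F (pr M) := by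
  have hγ : γ ∈ Subgroup.closure ({ModularGroup.S, ModularGroup.T} : Set SL(2, ℤ)) := by
    rw [SpecialLinearGroup.SL2Z_generators]; trivial
  induction hγ using Subgroup.closure_induction generalizing M with
  | mem x hx =>
    rcases hx with rfl | rfl
    · rw [pr_act _ hM, ← (h _ (pr_mem hM)).2]; congr 1
      simp [ModularGroup.S, div_eq_mul_inv]
    · rw [pr_act _ hM, ← (h _ (pr_mem hM)).1]; congr 1
      simp [ModularGroup.T]
  | one => rw [act_one]
  | mul x y _ _ hx hy => rw [act_mul, hx (act_mem hM y), hy hM]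
  | inv x _ hx => rw [← hx (act_mem hM x⁻¹), ← act_mul, mul_inv_cancel, act_one]

/-! ### The numbers `lam` and systems -/

theorem lam_sq (t : ℝ) (m : ℤ) : lam t m ^ 2 = t ^ 2 + ((m : ℝ) + 1 / 2) ^ 2 :=
  Real.sq_sqrt (by positivity)

theorem lam_pos (t : ℝ) (m : ℤ) : 0 < lam t m := by
  apply Real.sqrt_pos.2
  have : (m : ℝ) + 1 / 2 ≠ 0 := by
    intro h
    have h2 : ((2 * m + 1 : ℤ) : ℝ) = 0 := by push_cast; linarith
    have h3 : 2 * m + 1 = 0 := by exact_mod_cast h2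
    omega
  positivity

theorem le_lam (t : ℝ) (m : ℤ) : t ≤ lam t m :=
  Real.le_sqrt_of_sq_le (by nlinarith [sq_nonneg ((m : ℝ) + 1 / 2)])

theorem lam_sub_le {t : ℝ} (ht : 0 < t) (m : ℤ) :
    lam t m - t ≤ ((m : ℝ) + 1 / 2) ^ 2 / (2 * t) := by
  rw [le_div_iff₀ (by positivity)]
  nlinarith [lam_sq t m, sq_nonneg (lam t m - t)]

theorem lam_neg (t : ℝ) (m : ℤ) : lam t (-m - 1) = lam t m := by
  simp only [lam]; congr 1; push_cast; ring

theorem Sys.cont {t : ℝ} {Φ : ℤ → E → ℂ} (h : Sys t Φ) (m : ℤ) : ContinuousOn (Φ m) Gp :=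
  (h.smooth m).continuousOn

theorem Sys.diffAt {t : ℝ} {Φ : ℤ → E → ℂ} (h : Sys t Φ) (m : ℤ) {M : E} (hM : M ∈ Gp) :
    DifferentiableAt ℝ (Φ m) M :=
  ((h.smooth m).contDiffAt (isOpen_Gp.mem_nhds hM)).differentiableAt (by simp)

theorem Sys.x3 {t : ℝ} {Φ : ℤ → E → ℂ} (h : Sys t Φ) (m : ℤ) {M : E} (hM : M ∈ Gp) :
    X3 (Φ m) M = 2 * m * I * Φ m M := by
  have h1 := hasDerivAt_rot (h := Φ m) (M := M) (θ := 0) (by rw [rot_zero]; exact h.diffAt m hM)
  rw [rot_zero] at h1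
  have h2 : HasDerivAt (fun r : ℝ => Complex.exp (2 * m * r * I) * Φ m M)
      (2 * m * I * Φ m M) 0 := by
    have := ((((Complex.ofRealCLM.hasDerivAt (x := (0 : ℝ))).const_mul (2 * (m : ℂ))).mul_const
      I).cexp).mul_const (Φ m M)
    simpa using this
  simp only [h.wt] at h1
  exact h1.unique h2

theorem Ra_const_mul (c : ℂ) {h : E → ℂ} {M : E} (hd : DifferentiableAt ℝ h M) :
    Ra (fun N => c * h N) M = c * Ra h M := by
  simp only [Ra, X1, X2, fderiv_const_mul hd]; simp; ring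

theorem Lo_const_mul (c : ℂ) {h : E → ℂ} {M : E} (hd : DifferentiableAt ℝ h M) :
    Lo (fun N => c * h N) M = c * Lo h M := by
  simp only [Lo, X1, X2, fderiv_const_mul hd]; simp; ring

/-- the conjugate system -/
theorem Sys.conj {t : ℝ} {Φ : ℤ → E → ℂ} (h : Sys t Φ) :
    Sys t fun m M => (-1) ^ m * (starRingEnd ℂ) (Φ (-m) M) := by
  have hd : ∀ m, ∀ M ∈ Gp, DifferentiableAt ℝ (fun N => (starRingEnd ℂ) (Φ m N)) M :=
    fun m M hM => conjCLE.differentiableAt.comp M (h.diffAt m hM)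
  refine ⟨fun m => ?_, fun m => ?_, fun m M hM => ?_, fun m M hM => ?_, fun m θ M => ?_,
    fun m s M hs => by simp only [h.hom _ s M hs], fun m γ M => by simp only [h.inv], ?_⟩
  · exact (continuous_conj.measurable.comp (h.meas _)).const_mul _
  · exact contDiffOn_const.mul (conjCLE.contDiff.comp_contDiffOn (h.smooth _))
  · rw [Ra_const_mul _ (hd _ M hM), Ra_conj, h.lo _ M hM, lam_neg, zpow_add_one₀ (by norm_num),
      show -(m + 1) = -m - 1 by ring]
    simp only [map_mul, conj_I, conj_ofReal]; ring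
  · rw [Lo_const_mul _ (hd _ M hM), Lo_conj, h.ra _ M hM, ← lam_neg t (m - 1),
      zpow_sub_one₀ (by norm_num), show -(m - 1) - 1 = -m by ring, show -(m - 1) = -m + 1 by ring]
    simp only [map_mul, conj_I, conj_ofReal]; norm_num; ring
  · rw [h.wt, map_mul, ← Complex.exp_conj]
    simp only [map_mul, conj_I, conj_ofReal, conj_ofNat, map_intCast]
    push_cast; ring_nf
  · simpa using h.mass

end Pool.Agent.MP_a28cf0_nt.Cub
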