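import Mathlib

/-!
Model for the cubic joint moments.  A real `2 × 2` matrix with rows `(a, b)`, `(c, d)` is the pair
`(b + a i, d + c i) : ℂ × ℂ`.  `rot` is the right action of `SO(2)`, `fl` the right action of the
diagonal group, `act` the left action of `SL(2, ℤ)`, `pr` the projection to the upper half plane.
-/

set_option autoImplicit false

namespace Pool.Agent.MP_a28cf0_nt.Cub

open MeasureTheory Complex Filter Topology Set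
open scoped ENNReal MatrixGroups

abbrev E : Type := ℂ × ℂ

/-- the determinant -/
def dt (M : E) : ℝ := M.1.im * M.2.re - M.1.re * M.2.im

/-- the point `M · i` of the upper half plane -/
noncomputable def pr (M : E) : ℂ := M.1 / M.2

def Gp : Set E := {M | 0 < dt M}

def Sh : Set E := {M | 1 ≤ dt M ∧ dt M ≤ 4}

/-- Lebesgue measure on the shell `1 ≤ det ≤ 4` -/
noncomputable def nu : Measure E := volume.restrict Sh

/-- the compact rotation invariant pieces of the shell -/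
def Bl (ρ : ℝ) : Set E := Sh ∩ Metric.closedBall 0 ρ

noncomputable def rot (θ : ℝ) (M : E) : E := Complex.exp (θ * I) • M

noncomputable def fl (s : ℝ) (M : E) : E := Real.cosh s • M + Real.sinh s • star M

/-- matrix product -/
noncomputable def mul (A M : E) : E := (A.1.im • M.1 + A.1.re • M.2, A.2.im • M.1 + A.2.re • M.2)

/-- identity matrix -/
def one : E := (I, 1)

def act (γ : SL(2, ℤ)) (M : E) : E :=
  ((γ 0 0 : ℂ) * M.1 + (γ 0 1 : ℂ) * M.2, (γ 1 0 : ℂ) * M.1 + (γ 1 1 : ℂ) * M.2)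

def Up : Set ℂ := {z | 0 < z.im}

def Fd : Set ℂ := {z | 0 < z.im ∧ |z.re| ≤ 1 / 2 ∧ 1 ≤ ‖z‖}

def Fe : Set E := Sh ∩ pr ⁻¹' Fd

noncomputable def X1 (h : E → ℂ) (M : E) : ℂ := fderiv ℝ h M (star M)

noncomputable def X2 (h : E → ℂ) (M : E) : ℂ := fderiv ℝ h M (I • star M)

noncomputable def X3 (h : E → ℂ) (M : E) : ℂ := fderiv ℝ h M (I • M)

/-- raising operator -/
noncomputable def Ra (h : E → ℂ) (M : E) : ℂ := (X1 h M + I * X2 h M) / 2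

/-- lowering operator -/
noncomputable def Lo (h : E → ℂ) (M : E) : ℂ := (X1 h M - I * X2 h M) / 2

noncomputable def lam (t : ℝ) (m : ℤ) : ℝ := √(t ^ 2 + ((m : ℝ) + 1 / 2) ^ 2)

/-- the raising and lowering system attached to a normalised eigenfunction -/
structure Sys (t : ℝ) (Φ : ℤ → E → ℂ) : Prop where
  meas : ∀ m, Measurable (Φ m)
  smooth : ∀ m, ContDiffOn ℝ 1 (Φ m) Gp
  ra : ∀ m, ∀ M ∈ Gp, Ra (Φ m) M = I * lam t m * Φ (m + 1) M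
  lo : ∀ m, ∀ M ∈ Gp, Lo (Φ m) M = I * lam t (m - 1) * Φ (m - 1) M
  wt : ∀ (m : ℤ) (θ : ℝ) (M : E), Φ m (rot θ M) = Complex.exp (2 * m * θ * I) * Φ m M
  hom : ∀ (m : ℤ) (s : ℝ) (M : E), 0 < s → Φ m (s • M) = Φ m M
  inv : ∀ (m : ℤ) (γ : SL(2, ℤ)) (M : E), Φ m (act γ M) = Φ m M
  mass : ∫⁻ M in Fe, ‖Φ 0 M‖ₑ ^ 2 ∂nu ≤ 100

/-- vanishing far out, near the shell -/
def Van (h : E → ℂ) : Prop := ∃ ρ : ℝ, ∀ M : E, 1 / 2 < dt M → dt M < 5 → ρ < ‖M‖ → h M = 0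

structure Test (Ψ : E → ℂ) : Prop where
  smooth : ContDiffOn ℝ (⊤ : ℕ∞) Ψ Gp
  van : Van Ψ

noncomputable def tau (Ψ : E → ℂ) (Φ₁ Φ₂ Φ₃ : ℤ → E → ℂ) (a b c : ℤ) : ℂ :=
  ∫ M, Ψ M * (Φ₁ a M * Φ₂ b M * Φ₃ c M) ∂nu

/-- slowly varying coefficient sequences at scale `N` -/
structure Coef (K N : ℝ) (c : ℤ → ℝ) : Prop where
  supp : ∀ m : ℤ, K * N ≤ |(m : ℝ)| → c m = 0
  bd : ∀ m, |c m| ≤ K
  d1 : ∀ m, |c (m + 1) - c m| ≤ K / N

structure Coef3 (K N : ℝ) (c : ℤ → ℝ) : Prop extends Coef K N c where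
  d2 : ∀ m, |c (m + 1) + c (m - 1) - 2 * c m| ≤ K / N ^ 2
  d3 : ∀ m, |c (m + 2) - 3 * c (m + 1) + 3 * c m - c (m - 1)| ≤ K / N ^ 3

noncomputable def ctil (t : ℝ) (c : ℤ → ℝ) (m : ℤ) : ℝ :=
  lam t (m - 1) * c (m - 1) + lam t m * c (m + 1) - 2 * t * c m

/-- wave packet -/
noncomputable def pk (c : ℤ → ℝ) (Φ : ℤ → E → ℂ) (M : E) : ℂ := ∑' m : ℤ, (c m : ℂ) * Φ m M

/-- the density of the microlocal lift -/
noncomputable def Gd (t : ℝ) (c : ℤ → ℝ) (Φ : ℤ → E → ℂ) (M : E) : ℝ≥0∞ :=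
  ENNReal.ofReal ((‖pk c Φ M‖ ^ 2 + ‖pk (ctil t c) Φ M‖ ^ 2) / √t)

noncomputable def lift (t : ℝ) (c : ℤ → ℝ) (Φ : ℤ → E → ℂ) : Measure E :=
  nu.withDensity (Gd t c Φ)

/-- pairs of unit geodesic segments crossing over `Q` at an angle in `J` -/
def Zs (Q : Set E) (J : Set ℝ) : Set (E × E) :=
  {P | ∃ M ∈ Q, ∃ a ∈ Icc (0 : ℝ) 1, ∃ b ∈ Icc (0 : ℝ) 1, ∃ θ ∈ J, ∃ s ∈ Icc (1 / 2 : ℝ) 2,
    P.1 = fl a M ∧ P.2 = s • fl b (rot θ M)}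

/-- what is kept of the limit measures -/
structure Good (μ : Measure E) : Prop where
  fin : IsFiniteMeasureOnCompacts μ
  sh : μ Shᶜ = 0
  inv : ∀ γ : SL(2, ℤ), μ.map (act γ) = μ
  flow : ∀ s : ℝ, μ.map (fl s) = μ
  fd : μ Fe < ⊤

/-- vague convergence along a filter -/
def Vague (l : Filter ℕ) (ν : ℕ → Measure E) (μ : Measure E) : Prop :=
  ∀ φ : E → ℝ, Continuous φ → HasCompactSupport φ →
    Tendsto (fun j => ∫ M, φ M ∂(ν j)) l (𝓝 (∫ M, φ M ∂μ))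

/-- the box of admissible indices -/
def Adm (K t₁ t₂ t₃ : ℝ) (a b c : ℤ) : Prop :=
  |(a : ℝ)| ≤ K * √t₁ ∧ |(b : ℝ)| ≤ K * √t₂ ∧ |(c : ℝ)| ≤ K * √t₃

/-- cosine of the resonant angle -/
noncomputable def cc (t₁ t₂ t₃ : ℝ) : ℝ := (t₂ ^ 2 - t₁ ^ 2 - t₃ ^ 2) / (2 * t₁ * t₃)

/-- the averaged sum of triple products -/
noncomputable def avg (τ : ℤ → ℤ → ℤ → ℂ) (c : ℤ → ℝ) (β : ℝ) (e : ℂ) (n : ℕ) (m₂ σ : ℤ) : ℂ :=
  ∑' a : ℤ, (c a : ℂ) * Complex.exp (2 * a * β * I) *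
    ∑ b ∈ Finset.range n, e ^ b * τ a (m₂ + b) (σ - a - b)

/-- approximate recurrences for a three parameter family of numbers -/
structure Rec (K A t₁ t₂ t₃ : ℝ) (τ : ℤ → ℤ → ℤ → ℂ) : Prop where
  bd : ∀ a b c, Adm K t₁ t₂ t₃ a b c → ‖τ a b c‖ ≤ A
  up : ∀ a b c, Adm K t₁ t₂ t₃ a b c →
    ‖t₁ * τ (a + 1) b c + t₂ * τ a (b + 1) c + t₃ * τ a b (c + 1)‖ ≤ A
  dn : ∀ a b c, Adm K t₁ t₂ t₃ a b c →
    ‖t₁ * τ (a - 1) b c + t₂ * τ a (b - 1) c + t₃ * τ a b (c - 1)‖ ≤ A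

/-- orbits of the positive diagonal group -/
def Orb (N : E) : Set E := {P | ∃ s : ℝ, 0 < s ∧ ∃ b : ℝ, P = s • fl b N}

/-- union of the orbits of positive mass -/
def At (μ : Measure E) : Set E := {N | N ∈ Gp ∧ μ (Orb N) ≠ 0}

/-- geodesics crossing a unit segment ending at `g` at the angle `θ` -/
def Surf (θ : ℝ) (g : E) : Set E :=
  {P | ∃ s : ℝ, 0 < s ∧ ∃ b : ℝ, ∃ a ∈ Icc (0 : ℝ) 1, P = s • fl b (rot θ (fl (-a) g))}

end Pool.Agent.MP_a28cf0_nt.Cub
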