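import Pool.Agent.MP_a28cf0_nt.Cub.Defs

set_option autoImplicit false

namespace Pool.Agent.MP_a28cf0_nt.Cub

open MeasureTheory Complex Filter Topology Set
open scoped ENNReal MatrixGroups

/-- twice the operator `d/d(conj z)` -/
noncomputable def ellipDb (g : ℂ → ℂ) (w : ℂ) : ℂ := fderiv ℝ g w 1 + I * fderiv ℝ g w I

noncomputable def ellipE (θ : ℝ) : ℂ := Real.cos θ + Real.sin θ * I

lemma ellip_lin (L : ℂ →L[ℝ] ℂ) (a b : ℝ) : L (a + b * I) = a * L 1 + b * L I := by
  have : (a : ℂ) + b * I = a • (1 : ℂ) + b • I := by simp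
  rw [this, map_add, map_smul, map_smul]; simp

lemma ellip_norm_E (θ : ℝ) : ‖ellipE θ‖ = 1 := by
  have : ellipE θ = Complex.exp (θ * I) := by
    rw [Complex.exp_mul_I]; simp [ellipE]
  rw [this, Complex.norm_exp_ofReal_mul_I]

lemma ellip_cont_E : Continuous ellipE := by unfold ellipE; fun_prop

lemma ellip_hasDeriv_E (θ : ℝ) : HasDerivAt ellipE (I * ellipE θ) θ := by
  have h1 := (Real.hasDerivAt_cos θ).ofReal_comp
  have h2 := ((Real.hasDerivAt_sin θ).ofReal_comp).mul_const I
  refine HasDerivAt.congr_deriv (f := ellipE) (h1.add h2) ?_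
  simp only [ellipE]
  push_cast
  linear_combination (-Complex.sin θ) * I_mul_I

lemma ellip_int (G : ℝ × ℝ → ℂ) (hG : Continuous G) (R : ℝ) (h0 : ∀ p : ℝ × ℝ, R < p.1 → G p = 0) :
    IntegrableOn G (Ioi (0 : ℝ) ×ˢ Ioo (-Real.pi) Real.pi) := by
  have hK : IsCompact (Icc (0 : ℝ) R ×ˢ Icc (-Real.pi) Real.pi) := isCompact_Icc.prod isCompact_Icc
  refine (hG.continuousOn.integrableOn_compact hK).of_forall_sdiff_eq_zero
    (measurableSet_Ioi.prod measurableSet_Ioo) ?_
  rintro p ⟨⟨h1, h2⟩, h3⟩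
  apply h0
  by_contra h
  exact h3 ⟨⟨le_of_lt h1, not_lt.1 h⟩, ⟨h2.1.le, h2.2.le⟩⟩

lemma ellip_pomp0 (g : ℂ → ℂ) (hg : ContDiff ℝ 1 g) (hc : HasCompactSupport g) :
    ∫ w : ℂ, w⁻¹ * ellipDb g w = -(2 * Real.pi) * g 0 := by
  have hd : Differentiable ℝ g := hg.differentiable (by norm_num)
  have hcf : Continuous (fderiv ℝ g) := hg.continuous_fderiv (by norm_num)
  obtain ⟨R, hR⟩ := (hc.isCompact.isBounded).subset_closedBall (0 : ℂ)
  have hz : ∀ w : ℂ, R < ‖w‖ → w ∉ tsupport g := fun w hw h => by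
    have := hR h
    rw [mem_closedBall_zero_iff] at this
    linarith
  have hz1 : ∀ w : ℂ, R < ‖w‖ → fderiv ℝ g w = 0 := fun w hw => by
    by_contra h
    exact hz w hw (support_fderiv_subset ℝ (f := g) h)
  have hn : ∀ p : ℝ × ℝ, ‖(p.1 : ℂ) * ellipE p.2‖ = |p.1| := fun p => by
    rw [norm_mul, ellip_norm_E]; simp
  set A : ℝ × ℝ → ℂ := fun p => fderiv ℝ g (p.1 * ellipE p.2) (ellipE p.2) with hA
  set B : ℝ × ℝ → ℂ := fun p => I * fderiv ℝ g (p.1 * ellipE p.2) (I * ellipE p.2) with hB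
  have hE := ellip_cont_E
  have hAi := ellip_int A (by rw [hA]; fun_prop) R fun p hp => by
    simp only [hA]
    rw [hz1 _ (by rw [hn]; exact hp.trans_le (le_abs_self _))]; simp
  have hBi := ellip_int B (by rw [hB]; fun_prop) R fun p hp => by
    simp only [hB]
    rw [hz1 _ (by rw [hn]; exact hp.trans_le (le_abs_self _))]; simp
  rw [← Complex.integral_comp_polarCoord_symm]
  have hT : polarCoord.target = Ioi (0 : ℝ) ×ˢ Ioo (-Real.pi) Real.pi := rfl
  rw [hT, setIntegral_congr_fun (g := fun p => A p + B p)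
    (measurableSet_Ioi.prod measurableSet_Ioo) ?_, integral_add hAi hBi]
  · have h1 : ∫ p in Ioi (0 : ℝ) ×ˢ Ioo (-Real.pi) Real.pi, A p = -(2 * Real.pi) * g 0 := by
      rw [Measure.volume_eq_prod] at hAi ⊢
      unfold IntegrableOn at hAi
      rw [← Measure.prod_restrict] at hAi ⊢
      rw [integral_prod_symm _ hAi]
      have : ∀ θ : ℝ, ∫ r in Ioi (0 : ℝ), A (r, θ) = -g 0 := fun θ => by
        have hs : HasCompactSupport fun r : ℝ => g (r * ellipE θ) :=
          HasCompactSupport.intro (isCompact_Icc (a := -R) (b := R)) fun r hr => by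
            apply image_eq_zero_of_notMem_tsupport
            apply hz
            rw [hn (r, θ)]
            by_contra h
            exact hr (abs_le.1 (not_lt.1 h))
        have h1 : ContDiff ℝ 1 fun r : ℝ => g (r * ellipE θ) :=
          hg.comp (ofRealCLM.contDiff.mul contDiff_const)
        have h2 := HasCompactSupport.integral_Ioi_deriv_eq h1 hs 0
        simp only [ofReal_zero, zero_mul] at h2
        rw [← h2]
        refine integral_congr_ae (Eventually.of_forall fun r => ?_)
        have h3 : HasDerivAt (fun r : ℝ => (r : ℂ) * ellipE θ) (ellipE θ) r := by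
          simpa using ((hasDerivAt_id r).ofReal_comp).mul_const (ellipE θ)
        exact ((hd _).hasFDerivAt.comp_hasDerivAt r h3).deriv.symm
      simp only [this]
      rw [setIntegral_const]
      have hp := Real.pi_pos
      simp only [Real.volume_real_Ioo_of_le (show -Real.pi ≤ Real.pi by linarith), real_smul]
      push_cast; ring
    have h2 : ∫ p in Ioi (0 : ℝ) ×ˢ Ioo (-Real.pi) Real.pi, B p = 0 := by
      rw [Measure.volume_eq_prod] at hBi ⊢
      rw [setIntegral_prod _ hBi]
      refine setIntegral_eq_zero_of_forall_eq_zero fun r hr => ?_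
      have hr0 : (r : ℂ) ≠ 0 := ofReal_ne_zero.2 (ne_of_gt hr)
      have hp := Real.pi_pos
      have hder : ∀ θ : ℝ, HasDerivAt (fun θ : ℝ => I / r * g (r * ellipE θ)) (B (r, θ)) θ :=
        fun θ => by
        have h3 := ((hd _).hasFDerivAt.comp_hasDerivAt θ
          ((ellip_hasDeriv_E θ).const_mul (r : ℂ))).const_mul (I / r)
        refine HasDerivAt.congr_deriv h3 ?_
        simp only [hB]
        have : (r : ℂ) * (I * ellipE θ) = r • (I * ellipE θ) := by simp
        rw [this, map_smul, real_smul]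
        field_simp
      have hcB : Continuous fun θ : ℝ => B (r, θ) := by simp only [hB]; fun_prop
      rw [← integral_Ioc_eq_integral_Ioo,
        ← intervalIntegral.integral_of_le (show -Real.pi ≤ Real.pi by linarith),
        intervalIntegral.integral_eq_sub_of_hasDerivAt (fun θ _ => hder θ)
          (hcB.intervalIntegrable _ _)]
      simp [ellipE]
    rw [h1, h2, add_zero]
  · rintro p ⟨hp, -⟩
    have hr0 : (p.1 : ℂ) ≠ 0 := ofReal_ne_zero.2 (ne_of_gt hp)
    have hs : Complex.polarCoord.symm p = p.1 * ellipE p.2 := Complex.polarCoord_symm_apply p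
    have hI : I * ellipE p.2 = ((-Real.sin p.2 : ℝ) : ℂ) + (Real.cos p.2 : ℝ) * I := by
      simp only [ellipE]; push_cast
      linear_combination (Complex.sin p.2) * I_mul_I
    have hinv : (ellipE p.2)⁻¹ = Real.cos p.2 - Real.sin p.2 * I := by
      apply inv_eq_of_mul_eq_one_right
      simp only [ellipE]; push_cast
      linear_combination Complex.sin_sq_add_cos_sq (p.2 : ℂ) - (Complex.sin p.2) ^ 2 * I_mul_I
    simp only [hs, hA, hB, ellipDb, real_smul]
    rw [hI, ellip_lin, mul_inv, hinv]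
    conv_rhs => rw [show fderiv ℝ g (p.1 * ellipE p.2) (ellipE p.2) = _ from
      ellip_lin (fderiv ℝ g (p.1 * ellipE p.2)) (Real.cos p.2) (Real.sin p.2)]
    field_simp
    push_cast
    linear_combination (-(Complex.sin p.2) * fderiv ℝ g (p.1 * ellipE p.2) I) * I_mul_I

lemma ellip_locInt : LocallyIntegrable (fun w : ℂ => w⁻¹) volume := by
  refine locallyIntegrable_of_norm_le_rpow (C := 1) (α := 1) (by simp) (by simp)
    (Eventually.of_forall fun x => ?_) measurable_inv.aestronglyMeasurable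
  rw [norm_inv, Real.rpow_neg_one, one_mul]

/-- solving the `d/d(conj z)` equation with compactly supported right hand side -/
lemma ellip_solve (g : ℂ → ℂ) (n : ℕ) (hn : 1 ≤ n) (hg : ContDiff ℝ n g)
    (hc : HasCompactSupport g) :
    ∃ u : ℂ → ℂ, ContDiff ℝ n u ∧ ∀ z, ellipDb u z = 2 * Real.pi * g z := by
  have hg1 : ContDiff ℝ 1 g := hg.of_le (by exact_mod_cast hn)
  have hcf : Continuous (fderiv ℝ g) := hg1.continuous_fderiv (by norm_num)
  have hd : Differentiable ℝ g := hg1.differentiable (by norm_num)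
  refine ⟨convolution (fun w : ℂ => w⁻¹) g (ContinuousLinearMap.mul ℝ ℂ) volume,
    hc.contDiff_convolution_right (n := (n : ℕ∞)) _ ellip_locInt hg, fun z => ?_⟩
  have h1 := (hc.hasFDerivAt_convolution_right (ContinuousLinearMap.mul ℝ ℂ) ellip_locInt hg1
    z).fderiv
  have h2 : ∀ v : ℂ, fderiv ℝ (convolution (fun w : ℂ => w⁻¹) g (ContinuousLinearMap.mul ℝ ℂ)
      volume) z v = ∫ t : ℂ, t⁻¹ * fderiv ℝ g (z - t) v := fun v => by
    rw [h1, convolution_precompR_apply _ ellip_locInt (hc.fderiv ℝ) hcf]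
    rfl
  have h3 : ∀ v : ℂ, Integrable fun t : ℂ => t⁻¹ * fderiv ℝ g (z - t) v := fun v =>
    (hc.fderiv_apply ℝ v).convolutionExists_right (ContinuousLinearMap.mul ℝ ℂ) ellip_locInt
      (by fun_prop) z
  have hg' : ContDiff ℝ 1 fun w : ℂ => g (z - w) := hg1.comp (contDiff_const.sub contDiff_id)
  have hc' : HasCompactSupport fun w : ℂ => g (z - w) :=
    hc.comp_homeomorph (Homeomorph.subLeft z)
  have h4 := ellip_pomp0 _ hg' hc'
  have h5 : ∀ w v : ℂ, fderiv ℝ (fun w : ℂ => g (z - w)) w v = -fderiv ℝ g (z - w) v :=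
    fun w v => by
    have : HasFDerivAt (fun w : ℂ => g (z - w)) _ w :=
      (hd (z - w)).hasFDerivAt.comp w ((hasFDerivAt_id w).const_sub z)
    rw [this.fderiv]; simp
  simp only [ellipDb, h5, sub_zero] at h4
  simp only [ellipDb, h2]
  rw [← integral_const_mul, ← integral_add (h3 1) ((h3 I).const_mul I), ← neg_inj,
    ← integral_neg, ← neg_mul, ← h4]
  refine integral_congr_ae (Eventually.of_forall fun w => ?_)
  simp only
  ring

lemma ellip_open : IsOpen Up := isOpen_lt continuous_const Complex.continuous_im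

lemma ellip_step (f : ℂ → ℝ) (κ : ℝ) (n : ℕ) (hn : 2 ≤ n) (hf : ContDiffOn ℝ n f Up)
    (he : ∀ z : ℂ, 0 < z.im →
      -(z.im ^ 2) * (iteratedFDeriv ℝ 2 f z ![(1 : ℂ), 1] + iteratedFDeriv ℝ 2 f z ![I, I])
        = κ * f z) : ContDiffOn ℝ (n + 1) f Up := by
  have hat : ∀ z ∈ Up, ContDiffAt ℝ n f z := fun z hz => hf.contDiffAt (ellip_open.mem_nhds hz)
  have hat2 : ∀ z ∈ Up, ContDiffAt ℝ 2 f z := fun z hz =>
    (hat z hz).of_le (by exact_mod_cast hn)
  rw [contDiffOn_succ_iff_fderiv_of_isOpen ellip_open]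
  refine ⟨fun z hz => ((hat2 z hz).differentiableAt (by norm_num)).differentiableWithinAt,
    by simp, fun z0 hz0 => ContDiffAt.contDiffWithinAt ?_⟩
  have hy : 0 < z0.im := hz0
  let χ : ContDiffBump z0 := ⟨z0.im / 4, z0.im / 2, by linarith, by linarith⟩
  have hsup : tsupport χ ⊆ Up := by
    rw [χ.tsupport_eq]
    intro w hw
    have h1 : |(w - z0).im| ≤ z0.im / 2 :=
      (abs_im_le_norm _).trans (by simpa [dist_eq_norm] using hw)
    rw [sub_im] at h1
    have := (abs_le.1 h1).1
    show 0 < w.im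
    linarith
  set g : ℂ → ℂ := fun w => ((χ w * (-κ * f w / w.im ^ 2) : ℝ) : ℂ) with hg
  have hgc : HasCompactSupport g := by
    refine HasCompactSupport.intro χ.hasCompactSupport.isCompact fun w hw => ?_
    simp only [hg, image_eq_zero_of_notMem_tsupport hw, zero_mul, ofReal_zero]
  have hgs : ContDiff ℝ n g := by
    rw [contDiff_iff_contDiffAt]
    intro w
    by_cases hw : w ∈ Up
    · have hw' : w.im ^ 2 ≠ 0 := pow_ne_zero 2 (ne_of_gt hw)
      have h1 : ContDiffAt ℝ n (fun w : ℂ => w.im ^ 2) w := (imCLM.contDiff.pow 2).contDiffAt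
      exact ofRealCLM.contDiff.contDiffAt.comp w
        (χ.contDiff.contDiffAt.mul ((contDiffAt_const.mul (hat w hw)).div h1 hw'))
    · have h1 : w ∉ tsupport χ := fun h => hw (hsup h)
      refine (contDiffAt_const (c := (0 : ℂ))).congr_of_eventuallyEq ?_
      filter_upwards [(isClosed_tsupport χ).isOpen_compl.mem_nhds h1] with v hv
      simp only [hg, image_eq_zero_of_notMem_tsupport hv, zero_mul, ofReal_zero]
  obtain ⟨u, hu, hdu⟩ := ellip_solve g n (by omega) hgs hgc
  have hud : Differentiable ℝ u := hu.differentiable (by exact_mod_cast (by omega : n ≠ 0))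
  set h : ℂ → ℂ := fun w => (fderiv ℝ f w 1 : ℂ) - I * (fderiv ℝ f w I : ℝ) with hh
  have hpi : (2 * Real.pi : ℂ) ≠ 0 :=
    mul_ne_zero two_ne_zero (ofReal_ne_zero.2 Real.pi_ne_zero)
  have hol : DifferentiableOn ℂ (fun w => h w - (2 * Real.pi : ℂ)⁻¹ * u w)
      (Metric.ball z0 (z0.im / 4)) := fun w hw => by
    have hχ : χ w = 1 := χ.one_of_mem_closedBall (Metric.ball_subset_closedBall hw)
    have hwU : w ∈ Up := hsup (subset_tsupport _ (by rw [Function.mem_support, hχ]; norm_num))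
    have hD : HasFDerivAt (fderiv ℝ f) (fderiv ℝ (fderiv ℝ f) w) w :=
      (((hat2 w hwU).fderiv_right (m := 1) (by norm_num)).differentiableAt
        (by norm_num)).hasFDerivAt
    have hv : ∀ v : ℂ, HasFDerivAt (fun w => (fderiv ℝ f w v : ℂ))
        (ofRealCLM.comp ((ContinuousLinearMap.apply ℝ ℝ v).comp (fderiv ℝ (fderiv ℝ f) w))) w :=
      fun v => ofRealCLM.hasFDerivAt.comp w
        ((ContinuousLinearMap.apply ℝ ℝ v).hasFDerivAt.comp w hD)
    have hF := ((hv 1).sub ((hv I).const_mul I)).sub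
      ((hud w).hasFDerivAt.const_mul (2 * Real.pi : ℂ)⁻¹)
    refine DifferentiableAt.differentiableWithinAt ?_
    refine differentiableAt_complex_iff_differentiableAt_real.2 ⟨hF.differentiableAt, ?_⟩
    have hF' : fderiv ℝ (fun w => h w - (2 * Real.pi : ℂ)⁻¹ * u w) w = _ := hF.fderiv
    rw [hF']
    have hsym : fderiv ℝ (fderiv ℝ f) w 1 I = fderiv ℝ (fderiv ℝ f) w I 1 :=
      ((hat2 w hwU).isSymmSndFDerivAt (by simp)) 1 I
    have h1 := he w hwU
    simp only [iteratedFDeriv_two_apply, Matrix.cons_val_zero, Matrix.cons_val_one] at h1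
    have hw' : w.im ^ 2 ≠ 0 := pow_ne_zero 2 (ne_of_gt hwU)
    have h2 : -κ * f w / w.im ^ 2 =
        fderiv ℝ (fderiv ℝ f) w 1 1 + fderiv ℝ (fderiv ℝ f) w I I := by
      rw [div_eq_iff hw']; linear_combination h1
    have h3 := hdu w
    simp only [ellipDb, hg, hχ, one_mul, h2] at h3
    simp only [sub_apply, ContinuousLinearMap.comp_apply,
      smul_apply, ContinuousLinearMap.apply_apply, ofRealCLM_apply,
      smul_eq_mul, hsym]
    push_cast at h3
    field_simp
    linear_combination I * h3 + (2 * Real.pi * (fderiv ℝ (fderiv ℝ f) w I 1 : ℝ)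
      - fderiv ℝ u w I) * I_mul_I
  have han : ContDiffAt ℝ n (fun w => h w - (2 * Real.pi : ℂ)⁻¹ * u w) z0 :=
    ((hol.analyticAt (Metric.ball_mem_nhds _ (by linarith))).contDiffAt).restrict_scalars ℝ
  have hhn : ContDiffAt ℝ n h z0 := by
    have := han.add ((contDiffAt_const (c := (2 * Real.pi : ℂ)⁻¹)).mul hu.contDiffAt)
    simpa using this
  have hrep : fderiv ℝ f = fun w => (h w).re • reCLM - (h w).im • imCLM := by
    funext w
    ext v
    have : v = v.re • (1 : ℂ) + v.im • I := by simp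
    conv_lhs => rw [this, map_add, map_smul, map_smul]
    simp [hh]; ring
  rw [hrep]
  exact ((reCLM.contDiff.contDiffAt.comp z0 hhn).smul contDiffAt_const).sub
    ((imCLM.contDiff.contDiffAt.comp z0 hhn).smul contDiffAt_const)

/-- elliptic regularity: a `C²` eigenfunction of the hyperbolic Laplacian is smooth -/
theorem smooth_of_eigen (f : ℂ → ℝ) (κ : ℝ) (h2 : ContDiffOn ℝ 2 f Up)
    (he : ∀ z : ℂ, 0 < z.im →
      -(z.im ^ 2) * (iteratedFDeriv ℝ 2 f z ![(1 : ℂ), 1] + iteratedFDeriv ℝ 2 f z ![I, I])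
        = κ * f z) (n : ℕ) : ContDiffOn ℝ n f Up := by
  have key : ∀ k : ℕ, ContDiffOn ℝ ((k + 2 : ℕ) : WithTop ℕ∞) f Up := fun k => by
    induction k with
    | zero => exact h2
    | succ k ih => exact_mod_cast ellip_step f κ (k + 2) (by omega) ih he
  exact (key n).of_le (by exact_mod_cast Nat.le_add_right n 2)

end Pool.Agent.MP_a28cf0_nt.Cub
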