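import Pool.Agent.MP_a28cf0_nt.Cub.Basic

set_option autoImplicit false

namespace Pool.Agent.MP_a28cf0_nt.Cub

open MeasureTheory Complex Filter Topology Set
open scoped ENNReal MatrixGroups

theorem kan_scale {v : ℂ} (hv : v ≠ 0) (A : Set ℂ) :
    volume ((fun u => u / v) ⁻¹' A) = ENNReal.ofReal (normSq v) * volume A := by
  have h1 : LinearMap.det (LinearMap.mul ℝ ℂ v⁻¹) = (normSq v)⁻¹ := by
    rw [← map_inv₀, ← Algebra.norm_complex_apply, Algebra.norm_apply]
    rfl
  have h2 := Measure.addHaar_preimage_linearMap volume (f := LinearMap.mul ℝ ℂ v⁻¹)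
    (by rw [h1]; exact inv_ne_zero (normSq_pos.2 hv).ne') A
  rw [h1, inv_inv, abs_of_nonneg (normSq_nonneg v)] at h2
  rw [← h2]
  congr 1
  ext u
  simp [div_eq_inv_mul]

theorem kan_radial {y : ℝ} (hy : 0 < y) :
    ∫⁻ v : ℂ, {v : ℂ | 1 ≤ y * normSq v ∧ y * normSq v ≤ 4}.indicator
      (fun v => ENNReal.ofReal (normSq v)) v = ENNReal.ofReal (15 * Real.pi / 2 / y ^ 2) := by
  obtain ⟨a, ha, hya⟩ : ∃ a : ℝ, 0 < a ∧ y * a ^ 2 = 1 :=
    ⟨√y⁻¹, Real.sqrt_pos.2 (inv_pos.2 hy), by
      rw [Real.sq_sqrt (inv_pos.2 hy).le, mul_inv_cancel₀ hy.ne']⟩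
  rw [← Complex.lintegral_comp_polarCoord_symm, polarCoord_target, Measure.volume_eq_prod,
    setLIntegral_congr_fun (g := fun p : ℝ × ℝ =>
      (Icc a (2 * a)).indicator (fun r => ENNReal.ofReal (r ^ 3)) p.1 * 1)
      (measurableSet_Ioi.prod measurableSet_Ioo), ← Measure.prod_restrict,
    lintegral_prod_mul (g := fun _ => 1) (Measurable.aemeasurable
      (Measurable.indicator (by fun_prop) measurableSet_Icc)) aemeasurable_const,
    lintegral_indicator measurableSet_Icc, Measure.restrict_restrict measurableSet_Icc,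
    inter_eq_left.2 (show Icc a (2 * a) ⊆ Ioi 0 from fun r hr => ha.trans_le hr.1),
    ← ofReal_integral_eq_lintegral_ofReal (Continuous.integrableOn_Icc (by fun_prop))
      ((ae_restrict_mem measurableSet_Icc).mono fun r hr => pow_nonneg (ha.le.trans hr.1) 3),
    integral_Icc_eq_integral_Ioc, ← intervalIntegral.integral_of_le (by linarith), integral_pow,
    setLIntegral_one, Real.volume_Ioo, ← ENNReal.ofReal_mul' (by linarith [Real.pi_pos])]
  · congr 1
    rw [eq_div_iff (by positivity)]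
    push_cast
    linear_combination (15 * Real.pi / 2 * (y * a ^ 2 + 1)) * hya
  · intro p hp
    have h0 : 0 < p.1 := hp.1
    have h1 : normSq (Complex.polarCoord.symm p) = p.1 ^ 2 := by
      rw [normSq_eq_norm_sq, Complex.norm_polarCoord_symm, sq_abs]
    have h2 : (1 ≤ y * p.1 ^ 2 ∧ y * p.1 ^ 2 ≤ 4) ↔ (a ≤ p.1 ∧ p.1 ≤ 2 * a) := by
      rw [← pow_le_pow_iff_left₀ ha.le h0.le two_ne_zero,
        ← pow_le_pow_iff_left₀ h0.le (by positivity : 0 ≤ 2 * a) two_ne_zero,
        ← mul_le_mul_iff_right₀ hy (b := a ^ 2), ← mul_le_mul_iff_right₀ hy (c := (2 * a) ^ 2), hya,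
        show y * (2 * a) ^ 2 = 4 by linear_combination 4 * hya]
    simp only [indicator_apply, mem_ofPred_eq, h1, h2, mem_Icc, mul_one, smul_eq_mul]
    split_ifs
    · rw [← ENNReal.ofReal_mul h0.le]
      congr 1
      ring
    · exact mul_zero _

/-- push-forward of the shell measure to the upper half plane -/
theorem kan : nu.map pr =
    (volume.restrict Up).withDensity fun z => ENNReal.ofReal (15 * Real.pi / 2 / z.im ^ 2) := by
  ext s hs
  have hS : MeasurableSet {p : ℂ × ℂ | p.1 ∈ s ∧ 1 ≤ p.1.im * normSq p.2 ∧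
      p.1.im * normSq p.2 ≤ 4} := by
    have hc : Continuous fun p : ℂ × ℂ => p.1.im * normSq p.2 := by fun_prop
    exact (measurable_fst hs).inter ((measurableSet_le measurable_const hc.measurable).inter
      (measurableSet_le hc.measurable measurable_const))
  obtain ⟨G, hG⟩ : ∃ G : ℂ × ℂ → ℝ≥0∞, G = {p : ℂ × ℂ | p.1 ∈ s ∧ 1 ≤ p.1.im * normSq p.2 ∧
      p.1.im * normSq p.2 ≤ 4}.indicator fun p => ENNReal.ofReal (normSq p.2) := ⟨_, rfl⟩
  have hGm : Measurable G := hG ▸ Measurable.indicator (by fun_prop) hS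
  have h1 : ∀ v : ℂ, volume ((fun u => (u, v)) ⁻¹' (pr ⁻¹' s ∩ Sh)) = ∫⁻ z, G (z, v) := by
    intro v
    by_cases hv : v = 0
    · subst hv
      have : (fun u : ℂ => (u, (0 : ℂ))) ⁻¹' (pr ⁻¹' s ∩ Sh) = ∅ := by
        ext u
        simp [Sh, dt, show ¬ (1 : ℝ) ≤ 0 by norm_num]
      simp [this, hG]
    have h2 : (fun u : ℂ => (u, v)) ⁻¹' (pr ⁻¹' s ∩ Sh) = (fun u => u / v) ⁻¹'
        {z | z ∈ s ∧ 1 ≤ z.im * normSq v ∧ z.im * normSq v ≤ 4} := by
      ext u
      have := im_pr (u, v)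
      rw [eq_div_iff (normSq_pos.2 hv).ne'] at this
      simp only [mem_preimage, mem_inter_iff, Sh, mem_ofPred_eq, ← this, pr]
    rw [h2, kan_scale hv, ← setLIntegral_const, ← lintegral_indicator
      (show MeasurableSet {z | z ∈ s ∧ 1 ≤ z.im * normSq v ∧ z.im * normSq v ≤ 4} from
        measurable_prodMk_right hS), hG]
    rfl
  rw [Measure.map_apply measurable_pr hs, nu, Measure.restrict_apply (measurable_pr hs),
    Measure.volume_eq_prod, Measure.prod_apply_symm ((measurable_pr hs).inter measurableSet_Sh),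
    withDensity_apply _ hs, Measure.restrict_restrict hs,
    ← lintegral_indicator (hs.inter isOpen_Up.measurableSet), lintegral_congr h1,
    ← lintegral_lintegral_swap (f := fun z v => G (z, v)) hGm.aemeasurable]
  refine lintegral_congr fun z => ?_
  by_cases hz : z ∈ s ∩ Up
  · rw [indicator_of_mem hz, ← kan_radial hz.2, hG]
    refine lintegral_congr fun v => ?_
    by_cases hv : 1 ≤ z.im * normSq v ∧ z.im * normSq v ≤ 4
    · rw [indicator_of_mem (a := (z, v)) (by exact ⟨hz.1, hv⟩), indicator_of_mem (a := v) hv]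
    · exact (indicator_of_notMem (a := (z, v)) (fun h => hv h.2) _).trans
        (indicator_of_notMem (a := v) hv _).symm
  · rw [indicator_of_notMem hz, hG]
    refine (lintegral_congr fun v => indicator_of_notMem (fun h => hz ⟨h.1, ?_⟩) _).trans
      lintegral_zero
    exact lt_of_mul_lt_mul_right (a := normSq v) (by simpa using one_pos.trans_le h.2.1)
      (normSq_nonneg v)

end Pool.Agent.MP_a28cf0_nt.Cub
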