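import Pool.Agent.MP_a28cf0_nt.Cub.Defs

set_option autoImplicit false

namespace Pool.Agent.MP_a28cf0_nt.Cub

open MeasureTheory Complex Filter Topology Set
open scoped ENNReal MatrixGroups

/-- the recurrences on the plane of constant total weight -/
structure SeqG (A t₁ t₂ t₃ : ℝ) (g : ℤ → ℤ → ℂ) : Prop where
  bd : ∀ k b : ℤ, |(k : ℝ)| ≤ 4 * √t₁ → |(b : ℝ)| ≤ 2 * √t₂ → ‖g k b‖ ≤ A
  up : ∀ k b : ℤ, |(k : ℝ)| ≤ 4 * √t₁ → |(b : ℝ)| ≤ 2 * √t₂ →
    ‖t₁ * g (k + 1) b + t₂ * g k (b + 1) + t₃ * g k b‖ ≤ A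
  dn : ∀ k b : ℤ, |(k : ℝ)| ≤ 4 * √t₁ → |(b : ℝ)| ≤ 2 * √t₂ →
    ‖t₁ * g (k - 1) (b + 1) + t₂ * g k b + t₃ * g k (b + 1)‖ ≤ A

lemma seq_g {K A t₁ t₂ t₃ : ℝ} {τ : ℤ → ℤ → ℤ → ℂ} (h1 : 1 ≤ t₁) (h2 : t₁ ≤ t₂) (h3 : t₂ ≤ t₃)
    (hR : Rec (K + 8) A t₁ t₂ t₃ τ) {m₁ m₂ m₃ : ℤ} (hm : Adm K t₁ t₂ t₃ m₁ m₂ m₃) :
    SeqG A t₁ t₂ t₃ fun k b => τ (m₁ + k) (m₂ + b) (m₃ - k - b) := by
  have r1 : 1 ≤ √t₁ := Real.one_le_sqrt.2 h1
  have r2 : √t₁ ≤ √t₂ := Real.sqrt_le_sqrt h2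
  have r3 : √t₂ ≤ √t₃ := Real.sqrt_le_sqrt h3
  obtain ⟨a1, a2, a3⟩ := hm
  have key : ∀ k b i j : ℤ, |(k : ℝ)| ≤ 4 * √t₁ → |(b : ℝ)| ≤ 2 * √t₂ → |(i : ℝ)| ≤ 1 →
      |(j : ℝ)| ≤ 1 → Adm (K + 8) t₁ t₂ t₃ (m₁ + k) (m₂ + b + i) (m₃ - k - b - j) := by
    intro k b i j hk hb hi hj
    rw [abs_le] at a1 a2 a3 hk hb hi hj
    refine ⟨?_, ?_, ?_⟩ <;> rw [abs_le] <;> push_cast <;> constructor <;> nlinarith
  refine ⟨fun k b hk hb => ?_, fun k b hk hb => ?_, fun k b hk hb => ?_⟩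
  · simpa using hR.bd _ _ _ (key k b 0 0 hk hb (by simp) (by simp))
  · have := hR.up _ _ _ (key k b 0 1 hk hb (by simp) (by simp))
    convert this using 4 <;> ring_nf
  · have := hR.dn _ _ _ (key k b 1 0 hk hb (by simp) (by simp))
    convert this using 4 <;> ring_nf

lemma seq_br {A t₁ t₂ t₃ : ℝ} {g : ℤ → ℤ → ℂ} (h1 : 1 ≤ t₁) (h2 : t₁ ≤ t₂) (h3 : t₂ ≤ t₃)
    (hg : SeqG A t₁ t₂ t₃ g) (k b : ℤ) (hk : |(k : ℝ)| ≤ 3 * √t₁) (hb : |(b : ℝ)| ≤ 2 * √t₂) :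
    ‖g (k + 1) b + g (k - 1) b - 2 * (cc t₁ t₂ t₃ : ℝ) * g k b‖ ≤ 3 * A / t₁ := by
  have r1 : 1 ≤ √t₁ := Real.one_le_sqrt.2 h1
  have hk1 : |((k - 1 : ℤ) : ℝ)| ≤ 4 * √t₁ := by
    rw [abs_le] at hk ⊢; push_cast; constructor <;> linarith
  have hk0 : |(k : ℝ)| ≤ 4 * √t₁ := by linarith
  have u1 := hg.up (k - 1) b hk1 hb
  have u2 := hg.up k b hk0 hb
  have u3 := hg.dn k b hk0 hb
  have hA : 0 ≤ A := (norm_nonneg _).trans u1
  rw [sub_add_cancel] at u1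
  have p1 : (0 : ℝ) < t₁ := by linarith
  have p3 : (0 : ℝ) < t₃ := by linarith
  have e : ((t₁ * t₃ : ℝ) : ℂ) * (g (k + 1) b + g (k - 1) b - 2 * (cc t₁ t₂ t₃ : ℝ) * g k b) =
      t₁ * (t₁ * g k b + t₂ * g (k - 1) (b + 1) + t₃ * g (k - 1) b) +
      t₃ * (t₁ * g (k + 1) b + t₂ * g k (b + 1) + t₃ * g k b) -
      t₂ * (t₁ * g (k - 1) (b + 1) + t₂ * g k b + t₃ * g k (b + 1)) := by
    have q1 : (t₁ : ℂ) ≠ 0 := by exact_mod_cast p1.ne'
    have q3 : (t₃ : ℂ) ≠ 0 := by exact_mod_cast p3.ne'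
    simp only [cc]
    push_cast
    field_simp
    ring
  have n := congrArg norm e
  rw [norm_mul, Complex.norm_real, Real.norm_eq_abs, abs_of_pos (mul_pos p1 p3)] at n
  have b1 : ∀ (s : ℝ) (z : ℂ), 0 ≤ s → s ≤ t₃ → ‖z‖ ≤ A → ‖(s : ℂ) * z‖ ≤ t₃ * A := by
    intro s z hs hs' hz
    rw [norm_mul, Complex.norm_real, Real.norm_eq_abs, abs_of_nonneg hs]
    exact mul_le_mul hs' hz (norm_nonneg _) p3.le
  have v1 := b1 t₁ _ p1.le (by linarith) u1
  have v2 := b1 t₃ _ p3.le le_rfl u2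
  have v3 := b1 t₂ _ (by linarith) h3 u3
  have tot := (norm_sub_le _ _).trans (add_le_add ((norm_add_le _ _).trans (add_le_add v1 v2)) v3)
  rw [← n] at tot
  rw [le_div_iff₀ p1]
  nlinarith

theorem seq_forbidden {ε₀ : ℝ} (hε : 0 < ε₀) : ∃ C : ℝ, 0 ≤ C ∧ ∀ (K A t₁ t₂ t₃ : ℝ)
    (τ : ℤ → ℤ → ℤ → ℂ), 1 ≤ t₁ → t₁ ≤ t₂ → t₂ ≤ t₃ → cc t₁ t₂ t₃ ≤ -1 - ε₀ →
    Rec (K + 8) A t₁ t₂ t₃ τ → ∀ a b c : ℤ, Adm K t₁ t₂ t₃ a b c → ‖τ a b c‖ ≤ C * A / √t₁ := by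
  refine ⟨7 / (2 * ε₀), by positivity, ?_⟩
  intro K A t₁ t₂ t₃ τ h1 h2 h3 hc hR a b c hm
  have hg := seq_g h1 h2 h3 hR hm
  set g : ℤ → ℤ → ℂ := fun k b' => τ (a + k) (b + b') (c - k - b') with hgd
  have r1 : 1 ≤ √t₁ := Real.one_le_sqrt.2 h1
  have p1 : (0 : ℝ) < t₁ := by linarith
  have z2 : |((0 : ℤ) : ℝ)| ≤ 2 * √t₂ := by simp
  have hA : 0 ≤ A := (norm_nonneg _).trans (hg.bd 0 0 (by simp) z2)
  set n := ⌊√t₁⌋₊ with hn
  have n1 : (n : ℝ) ≤ √t₁ := Nat.floor_le (by linarith)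
  have n2 : √t₁ < n + 1 := Nat.lt_floor_add_one _
  have n3 : 1 ≤ n := Nat.le_floor (by simpa using r1)
  set D := 3 * A / (2 * ε₀ * t₁) with hD
  have hD' : 3 * A / t₁ = 2 * ε₀ * D := by rw [hD]; field_simp
  have ind : ∀ k : ℕ, ∀ i : ℤ, |(i : ℝ)| + k ≤ n → ‖g i 0‖ ≤ A / (1 + ε₀) ^ k + D := by
    intro k
    induction k with
    | zero =>
      intro i hi
      have := hg.bd i 0 (by simp at hi; linarith) z2
      have : 0 ≤ D := by positivity
      simp; linarith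
    | succ k ih =>
      intro i hi
      push_cast at hi
      have k0 : (0 : ℝ) ≤ k := Nat.cast_nonneg k
      have a1 := ih (i + 1) (by
        push_cast
        have := abs_add_le (i : ℝ) 1
        rw [abs_one] at this; linarith)
      have a2 := ih (i - 1) (by
        push_cast
        have := abs_sub (i : ℝ) 1
        rw [abs_one] at this; linarith)
      have a3 := seq_br h1 h2 h3 hg i 0 (by linarith) z2
      have a4 : ‖2 * ((cc t₁ t₂ t₃ : ℝ) : ℂ) * g i 0‖ ≤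
          ‖g (i + 1) 0‖ + ‖g (i - 1) 0‖ + 3 * A / t₁ := by
        have e : 2 * ((cc t₁ t₂ t₃ : ℝ) : ℂ) * g i 0 = (g (i + 1) 0 + g (i - 1) 0) -
            (g (i + 1) 0 + g (i - 1) 0 - 2 * (cc t₁ t₂ t₃ : ℝ) * g i 0) := by ring
        rw [e]
        exact (norm_sub_le _ _).trans (add_le_add (norm_add_le _ _) a3)
      rw [norm_mul, norm_mul, Complex.norm_real, Real.norm_eq_abs, abs_of_neg (by linarith),
        Complex.norm_ofNat] at a4
      have a5 : (1 + ε₀) * ‖g i 0‖ ≤ A / (1 + ε₀) ^ k + (1 + ε₀) * D := by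
        have := mul_le_mul_of_nonneg_right (show 1 + ε₀ ≤ -cc t₁ t₂ t₃ by linarith)
          (norm_nonneg (g i 0))
        nlinarith
      have e2 : A / (1 + ε₀) ^ k + (1 + ε₀) * D = (1 + ε₀) * (A / (1 + ε₀) ^ (k + 1) + D) := by
        field_simp
        ring
      rw [e2] at a5
      exact le_of_mul_le_mul_left a5 (by linarith)
  have f := ind n 0 (by simp)
  have g0 : g 0 0 = τ a b c := by simp [hgd]
  rw [g0] at f
  have be : 1 + (n : ℝ) * ε₀ ≤ (1 + ε₀) ^ n := one_add_mul_le_pow (by linarith) n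
  have n4 : (1 : ℝ) ≤ n := by exact_mod_cast n3
  have s1 : A / (1 + ε₀) ^ n ≤ 2 / ε₀ * A / √t₁ := by
    rw [div_le_div_iff₀ (by positivity) (by linarith)]
    have : √t₁ ≤ 2 / ε₀ * (1 + ε₀) ^ n := by
      rw [div_mul_eq_mul_div, le_div_iff₀ hε]
      nlinarith
    nlinarith
  have s2 : D ≤ 3 / (2 * ε₀) * A / √t₁ := by
    have e : D = 3 / (2 * ε₀) * A / t₁ := by rw [hD]; field_simp
    rw [e]
    refine div_le_div_of_nonneg_left (by positivity) (by linarith) ?_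
    nlinarith [Real.sq_sqrt p1.le]
  have e : 7 / (2 * ε₀) * A / √t₁ = 2 / ε₀ * A / √t₁ + 3 / (2 * ε₀) * A / √t₁ := by
    field_simp; ring
  linarith

lemma seq_norm_exp (x : ℝ) : ‖Complex.exp (x * I)‖ = 1 := Complex.norm_exp_ofReal_mul_I x

lemma seq_sum {d : ℤ → ℝ} {F : ℤ → ℂ} {r θ α B Er K₀ : ℝ} {T : ℂ} (hr : 1 ≤ r)
    (d0 : ∀ k, 0 ≤ d k) (d1 : ∀ k : ℤ, |(k : ℝ)| ≤ r → d k = 1)
    (d2 : ∀ k : ℤ, 2 * r ≤ |(k : ℝ)| → d k = 0) (d3 : ∀ k, |d (k + 1) - d k| ≤ K₀ / r)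
    (hF : ∀ k : ℤ, |(k : ℝ)| ≤ 4 * r → ‖F k‖ ≤ B)
    (hT : ∀ k : ℤ, |(k : ℝ)| ≤ 2 * r →
      ‖F (k + 1) - Complex.exp (-α * I) * F k - Complex.exp ((k * α : ℝ) * I) * T‖ ≤ Er)
    (hθ : |θ + α| ≤ 1 / (2 * r)) :
    ‖T‖ ≤ 2 * Er + 14 * |K₀| * B / r +
      4 * ‖∑' k : ℤ, (d k : ℂ) * Complex.exp ((k * θ : ℝ) * I) * F k‖ / r := by
  have r0 : 0 < r := by linarith
  set N : ℕ := ⌈2 * r⌉₊ with hN
  have N1 : 2 * r ≤ N := Nat.le_ceil _
  have N2 : (N : ℝ) < 2 * r + 1 := Nat.ceil_lt_add_one (by linarith)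
  set s : Finset ℤ := Finset.Icc (-(N : ℤ)) N with hs
  have out : ∀ k ∉ s, (N : ℝ) + 1 ≤ |(k : ℝ)| := by
    intro k hk
    rw [hs, Finset.mem_Icc, ← abs_le, not_le] at hk
    have : (N : ℤ) + 1 ≤ |k| := hk
    exact_mod_cast this
  have ins : ∀ k ∈ s, |(k : ℝ)| ≤ N := by
    intro k hk
    rw [hs, Finset.mem_Icc, ← abs_le] at hk
    exact_mod_cast hk
  have o0 : ∀ k ∉ s, d k = 0 := fun k hk => d2 k (by linarith [out k hk])
  have o1 : ∀ k ∉ s, d (k - 1) = 0 := fun k hk => d2 _ (by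
    have := out k hk
    have h := abs_add_le ((k : ℝ) - 1) 1
    rw [abs_one, sub_add_cancel] at h
    push_cast; linarith)
  have card : (s.card : ℝ) ≤ 7 * r := by
    have : s.card = 2 * N + 1 := by rw [hs, Int.card_Icc]; omega
    rw [this]; push_cast; linarith
  have hB : 0 ≤ B := (norm_nonneg _).trans (hF 0 (by simp; linarith))
  set w : ℤ → ℂ := fun k => Complex.exp ((k * θ : ℝ) * I) with hw
  have nw : ∀ k, ‖w k‖ = 1 := fun k => seq_norm_exp _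
  set V := ∑' k : ℤ, (d k : ℂ) * w k * F k with hV
  have eV : V = ∑ k ∈ s, (d k : ℂ) * w k * F k :=
    tsum_eq_sum fun k hk => by simp [o0 k hk]
  set V' := ∑ k ∈ s, (d k : ℂ) * w k * F (k + 1) with hV'
  have eV' : V' = ∑ k ∈ s, (d (k - 1) : ℂ) * w (k - 1) * F k := by
    have e1 : ∑' k : ℤ, (d k : ℂ) * w k * F (k + 1) = V' :=
      tsum_eq_sum fun k hk => by simp [o0 k hk]
    have e2 : ∑' k : ℤ, (d (k - 1) : ℂ) * w (k - 1) * F k =
        ∑ k ∈ s, (d (k - 1) : ℂ) * w (k - 1) * F k := tsum_eq_sum fun k hk => by simp [o1 k hk]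
    rw [← e1, ← e2, ← (Equiv.subRight (1 : ℤ)).tsum_eq]
    simp
  have ew : ∀ k, w (k - 1) = w (-1) * w k := by
    intro k
    simp only [hw]
    rw [← Complex.exp_add]
    congr 1
    push_cast; ring
  have b1 : ‖V' - w (-1) * V‖ ≤ 7 * |K₀| * B := by
    rw [eV', eV, Finset.mul_sum, ← Finset.sum_sub_distrib]
    have : ∀ k ∈ s, ‖(d (k - 1) : ℂ) * w (k - 1) * F k - w (-1) * ((d k : ℂ) * w k * F k)‖ ≤
        |K₀| / r * B := by
      intro k hk
      have e : (d (k - 1) : ℂ) * w (k - 1) * F k - w (-1) * ((d k : ℂ) * w k * F k) =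
          ((d (k - 1) - d k : ℝ) : ℂ) * (w (-1) * w k) * F k := by rw [ew]; push_cast; ring
      rw [e, norm_mul, norm_mul, norm_mul, nw, nw, Complex.norm_real, Real.norm_eq_abs, mul_one,
        mul_one]
      have h3 := d3 (k - 1)
      rw [sub_add_cancel, abs_sub_comm] at h3
      refine mul_le_mul (h3.trans ?_) (hF k (by linarith [ins k hk])) (norm_nonneg _)
        (by positivity)
      exact div_le_div_of_nonneg_right (le_abs_self _) r0.le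
    refine (norm_sum_le _ _).trans ((Finset.sum_le_card_nsmul _ _ _ this).trans ?_)
    rw [nsmul_eq_mul]
    calc (s.card : ℝ) * (|K₀| / r * B) ≤ 7 * r * (|K₀| / r * B) :=
          mul_le_mul_of_nonneg_right card (by positivity)
      _ = 7 * |K₀| * B := by field_simp
  set D := ∑ k ∈ s, d k with hD
  have hDr : r ≤ D := by
    set n := ⌊r⌋₊ with hn
    have n1 : (n : ℝ) ≤ r := Nat.floor_le r0.le
    have n2 : r < n + 1 := Nat.lt_floor_add_one _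
    have sub : Finset.Icc (0 : ℤ) n ⊆ s := by
      intro k hk
      rw [Finset.mem_Icc] at hk
      rw [hs, Finset.mem_Icc]
      have : (n : ℝ) ≤ N := by linarith
      have : n ≤ N := by exact_mod_cast this
      omega
    have e : ∑ k ∈ Finset.Icc (0 : ℤ) n, d k = n + 1 := by
      rw [Finset.sum_congr rfl (g := fun _ => (1 : ℝ))]
      · have : (Finset.Icc (0 : ℤ) n).card = n + 1 := by rw [Int.card_Icc]; omega
        simp [this]
      · intro k hk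
        rw [Finset.mem_Icc] at hk
        refine d1 k ?_
        have a : (0 : ℝ) ≤ k := by exact_mod_cast hk.1
        have b : (k : ℝ) ≤ n := by exact_mod_cast hk.2
        rw [abs_of_nonneg a]; linarith
    have := Finset.sum_le_sum_of_subset_of_nonneg sub fun k _ _ => d0 k
    linarith
  set Z := ∑ k ∈ s, (d k : ℂ) * Complex.exp ((k * (θ + α) : ℝ) * I) with hZ
  have hZD : D / 2 ≤ ‖Z‖ := by
    refine le_trans ?_ (Complex.re_le_norm Z)
    rw [hZ, Complex.re_sum, hD, Finset.sum_div]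
    refine Finset.sum_le_sum fun k _ => ?_
    rw [Complex.re_ofReal_mul, Complex.exp_ofReal_mul_I_re]
    by_cases h : 2 * r ≤ |(k : ℝ)|
    · simp [d2 k h]
    · have x1 : |(k : ℝ) * (θ + α)| ≤ 1 := by
        rw [abs_mul]
        calc |(k : ℝ)| * |θ + α| ≤ 2 * r * (1 / (2 * r)) :=
              mul_le_mul (not_le.1 h).le hθ (abs_nonneg _) (by linarith)
          _ = 1 := by field_simp
      have x2 := Real.one_sub_sq_div_two_le_cos (x := (k : ℝ) * (θ + α))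
      have x3 : ((k : ℝ) * (θ + α)) ^ 2 ≤ 1 := by
        rw [← sq_abs]; nlinarith [abs_nonneg ((k : ℝ) * (θ + α))]
      nlinarith [d0 k]
  have b2 : ‖V' - Complex.exp (-α * I) * V - Z * T‖ ≤ D * Er := by
    rw [hV', eV, hZ, Finset.mul_sum, Finset.sum_mul, ← Finset.sum_sub_distrib,
      ← Finset.sum_sub_distrib, hD, Finset.sum_mul]
    refine (norm_sum_le _ _).trans (Finset.sum_le_sum fun k _ => ?_)
    have e0 : Complex.exp ((k * (θ + α) : ℝ) * I) = w k * Complex.exp ((k * α : ℝ) * I) := by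
      simp only [hw]
      rw [← Complex.exp_add]
      congr 1
      push_cast; ring
    have e : (d k : ℂ) * w k * F (k + 1) - Complex.exp (-α * I) * ((d k : ℂ) * w k * F k) -
        (d k : ℂ) * Complex.exp ((k * (θ + α) : ℝ) * I) * T = (d k : ℂ) * w k *
        (F (k + 1) - Complex.exp (-α * I) * F k - Complex.exp ((k * α : ℝ) * I) * T) := by
      rw [e0]; ring
    rw [e, norm_mul, norm_mul, nw, Complex.norm_real, Real.norm_eq_abs, abs_of_nonneg (d0 k),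
      mul_one]
    by_cases h : 2 * r ≤ |(k : ℝ)|
    · simp [d2 k h]
    · exact mul_le_mul_of_nonneg_left (hT k (not_le.1 h).le) (d0 k)
  have ne : ‖Complex.exp (-α * I)‖ = 1 := by
    have := seq_norm_exp (-α)
    simpa using this
  have b3 : ‖Z * T‖ ≤ D * Er + 7 * |K₀| * B + 2 * ‖V‖ := by
    have e : Z * T = (V' - w (-1) * V) + w (-1) * V - Complex.exp (-α * I) * V -
        (V' - Complex.exp (-α * I) * V - Z * T) := by ring
    have c1 : ‖w (-1) * V‖ = ‖V‖ := by rw [norm_mul, nw, one_mul]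
    have c2 : ‖Complex.exp (-α * I) * V‖ = ‖V‖ := by rw [norm_mul, ne, one_mul]
    have := norm_sub_le ((V' - w (-1) * V) + w (-1) * V - Complex.exp (-α * I) * V)
      (V' - Complex.exp (-α * I) * V - Z * T)
    have := norm_sub_le ((V' - w (-1) * V) + w (-1) * V) (Complex.exp (-α * I) * V)
    have := norm_add_le (V' - w (-1) * V) (w (-1) * V)
    rw [e]
    linarith
  rw [norm_mul] at b3
  have D0 : 0 < D := by linarith
  have b4 : D * ‖T‖ ≤ D * (2 * Er) + (14 * |K₀| * B + 4 * ‖V‖) := by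
    nlinarith [mul_le_mul_of_nonneg_right hZD (norm_nonneg T)]
  have b5 : 14 * |K₀| * B + 4 * ‖V‖ ≤ D * ((14 * |K₀| * B + 4 * ‖V‖) / r) := by
    rw [mul_div_assoc', le_div_iff₀ r0]
    have : 0 ≤ 14 * |K₀| * B + 4 * ‖V‖ := by positivity
    nlinarith
  have b6 : ‖T‖ ≤ 2 * Er + (14 * |K₀| * B + 4 * ‖V‖) / r :=
    le_of_mul_le_mul_left (by rw [mul_add]; linarith) D0
  rw [add_div] at b6
  linarith

theorem seq_allowed (K₀ : ℝ) : ∃ C : ℝ, 0 ≤ C ∧ ∀ (K A t₁ t₂ t₃ α : ℝ)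
    (τ : ℤ → ℤ → ℤ → ℂ), 1 ≤ t₁ → t₁ ≤ t₂ → t₂ ≤ t₃ → Real.cos α = cc t₁ t₂ t₃ →
    Rec (K + 8) A t₁ t₂ t₃ τ → ∀ m₁ m₂ m₃ : ℤ, Adm K t₁ t₂ t₃ m₁ m₂ m₃ →
    ∀ c : ℤ → ℝ, (∀ a, 0 ≤ c a) → (∀ a : ℤ, |(a : ℝ) - m₁| ≤ √t₁ → c a = 1) →
    (∀ a : ℤ, 2 * √t₁ ≤ |(a : ℝ) - m₁| → c a = 0) → (∀ a, |c (a + 1) - c a| ≤ K₀ / √t₁) →
    ∃ e : ℂ, ‖e‖ = 1 ∧ ∀ β : ℝ, |β + α / 2| ≤ 1 / (4 * √t₁) →
      ‖τ (m₁ + 1) m₂ (m₃ - 1) - Complex.exp (-α * I) * τ m₁ m₂ m₃‖ ≤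
        C * A / √t₁ + 4 * ‖avg τ c β e ⌈√t₂⌉₊ m₂ (m₁ + m₃)‖ / (√t₁ * √t₂) := by
  refine ⟨22 + 14 * |K₀|, by positivity, ?_⟩
  intro K A t₁ t₂ t₃ α τ h1 h2 h3 hc hR m₁ m₂ m₃ hm c c0 c1 c2 c3
  have hg := seq_g h1 h2 h3 hR hm
  set g : ℤ → ℤ → ℂ := fun k b => τ (m₁ + k) (m₂ + b) (m₃ - k - b) with hgd
  have r1 : 1 ≤ √t₁ := Real.one_le_sqrt.2 h1
  have r2 : √t₁ ≤ √t₂ := Real.sqrt_le_sqrt h2
  have p1 : (0 : ℝ) < t₁ := by linarith
  have p2 : (0 : ℝ) < t₂ := by linarith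
  have p3 : (0 : ℝ) < t₃ := by linarith
  have q1 : √t₁ * √t₁ = t₁ := Real.mul_self_sqrt p1.le
  have q2 : √t₂ * √t₂ = t₂ := Real.mul_self_sqrt p2.le
  have z2 : |((0 : ℤ) : ℝ)| ≤ 2 * √t₂ := by simp
  have hA : 0 ≤ A := (norm_nonneg _).trans (hg.bd 0 0 (by simp) z2)
  set e₁ := Complex.exp (α * I) with he₁
  set f₁ := Complex.exp (-α * I) with hf₁
  have ef : e₁ * f₁ = 1 := by rw [he₁, hf₁, ← Complex.exp_add]; simp
  have efs : e₁ + f₁ = 2 * (cc t₁ t₂ t₃ : ℝ) := by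
    rw [← hc, he₁, hf₁, Complex.ofReal_cos, Complex.two_cos]
  have ne₁ : ‖e₁‖ = 1 := seq_norm_exp α
  have nf₁ : ‖f₁‖ = 1 := by
    have := congrArg norm ef
    rwa [norm_mul, ne₁, one_mul, norm_one] at this
  set tp : ℤ → ℤ → ℂ := fun k b => g (k + 1) b - f₁ * g k b with htp
  have T1 : ∀ k b : ℤ, |(k : ℝ)| ≤ 2 * √t₁ → |(b : ℝ)| ≤ 2 * √t₂ →
      ‖tp (k + 1) b - e₁ * tp k b‖ ≤ 3 * A / t₁ := by
    intro k b hk hb
    have := seq_br h1 h2 h3 hg (k + 1) b (by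
      rw [abs_le] at hk ⊢; push_cast; constructor <;> linarith) hb
    rw [add_sub_cancel_right, ← efs] at this
    convert this using 2
    simp only [htp]
    linear_combination (g k b) * ef
  set e₂ : ℂ := -(t₁ * e₁ + t₃) / t₂ with he₂
  set e : ℂ := -(t₁ * f₁ + t₃) / t₂ with he
  have w1 : (t₁ : ℂ) ≠ 0 := by exact_mod_cast p1.ne'
  have w2 : (t₂ : ℂ) ≠ 0 := by exact_mod_cast p2.ne'
  have w3 : (t₃ : ℂ) ≠ 0 := by exact_mod_cast p3.ne'
  have ee : e * e₂ = 1 := by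
    have a : (t₁ : ℂ) * t₃ * (e₁ + f₁) = t₂ ^ 2 - t₁ ^ 2 - t₃ ^ 2 := by
      rw [efs]; simp only [cc]; push_cast; field_simp
    rw [he, he₂]
    field_simp
    linear_combination a + (t₁ : ℂ) ^ 2 * ef
  have ne : ‖e‖ = 1 := by
    have a : (starRingEnd ℂ) e₂ = e := by
      have : (starRingEnd ℂ) e₁ = f₁ := by
        rw [he₁, hf₁, ← Complex.exp_conj]; simp
      rw [he₂, he]; simp [this]
    have b : ‖e₂‖ = ‖e‖ := by rw [← a, Complex.norm_conj]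
    have := congrArg norm ee
    rw [norm_mul, b, norm_one] at this
    nlinarith [norm_nonneg e]
  have T2 : ∀ k b : ℤ, |(k : ℝ)| ≤ 2 * √t₁ → |(b : ℝ)| ≤ 2 * √t₂ →
      ‖tp k (b + 1) - e₂ * tp k b‖ ≤ 5 * A / t₂ := by
    intro k b hk hb
    have u1 := hg.up (k + 1) b (by rw [abs_le] at hk ⊢; push_cast; constructor <;> linarith) hb
    have u2 := hg.up k b (by linarith) hb
    have u3 := T1 k b hk hb
    have id : (t₂ : ℂ) * (tp k (b + 1) - e₂ * tp k b) =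
        (t₁ * g (k + 1 + 1) b + t₂ * g (k + 1) (b + 1) + t₃ * g (k + 1) b) -
        f₁ * (t₁ * g (k + 1) b + t₂ * g k (b + 1) + t₃ * g k b) -
        t₁ * (tp (k + 1) b - e₁ * tp k b) := by
      simp only [htp]
      rw [he₂]
      field_simp
      ring
    have n := congrArg norm id
    rw [norm_mul, Complex.norm_real, Real.norm_eq_abs, abs_of_pos p2] at n
    have v2 : ‖f₁ * (t₁ * g (k + 1) b + t₂ * g k (b + 1) + t₃ * g k b)‖ ≤ A := by
      rwa [norm_mul, nf₁, one_mul]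
    have v3 : ‖(t₁ : ℂ) * (tp (k + 1) b - e₁ * tp k b)‖ ≤ 3 * A := by
      rw [norm_mul, Complex.norm_real, Real.norm_eq_abs, abs_of_pos p1]
      rwa [le_div_iff₀ p1, mul_comm] at u3
    have tot := (norm_sub_le _ _).trans (add_le_add ((norm_sub_le _ _).trans (add_le_add u1 v2)) v3)
    rw [← n] at tot
    rw [le_div_iff₀ p2]
    linarith
  have S1 : ∀ k : ℤ, |(k : ℝ)| ≤ 2 * √t₁ →
      ‖tp k 0 - Complex.exp ((k * α : ℝ) * I) * tp 0 0‖ ≤ |(k : ℝ)| * (3 * A / t₁) := by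
    have ex : ∀ k : ℤ, Complex.exp ((((k + 1 : ℤ) : ℝ) * α : ℝ) * I) =
        e₁ * Complex.exp ((k * α : ℝ) * I) := by
      intro k
      rw [he₁, ← Complex.exp_add]
      congr 1
      push_cast; ring
    intro k
    induction k using Int.induction_on with
    | zero => intro _; simp
    | succ i ih =>
      intro hk
      have i0 : (0 : ℝ) ≤ i := Nat.cast_nonneg i
      have a1 : |(((i : ℤ) + 1 : ℤ) : ℝ)| = i + 1 := by
        push_cast; exact abs_of_nonneg (by linarith)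
      have a2 : |(((i : ℤ) : ℤ) : ℝ)| = i := by
        push_cast; exact abs_of_nonneg i0
      rw [a1] at hk ⊢
      rw [a2] at ih
      have u := T1 i 0 (by rw [a2]; linarith) z2
      have v := ih (by linarith)
      rw [ex]
      have id : tp (i + 1) 0 - e₁ * Complex.exp ((((i : ℤ) : ℝ) * α : ℝ) * I) * tp 0 0 =
          (tp (i + 1) 0 - e₁ * tp i 0) +
          e₁ * (tp i 0 - Complex.exp ((((i : ℤ) : ℝ) * α : ℝ) * I) * tp 0 0) := by ring
      rw [id]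
      refine (norm_add_le _ _).trans ?_
      rw [norm_mul, ne₁, one_mul]
      linarith
    | pred i ih =>
      intro hk
      have i0 : (0 : ℝ) ≤ i := Nat.cast_nonneg i
      have a1 : |((-(i : ℤ) - 1 : ℤ) : ℝ)| = i + 1 := by
        push_cast; rw [abs_of_nonpos (by linarith)]; ring
      have a2 : |((-(i : ℤ) : ℤ) : ℝ)| = i := by
        push_cast; rw [abs_neg]; exact abs_of_nonneg i0
      have u := T1 (-(i : ℤ) - 1) 0 hk z2
      rw [a1] at hk ⊢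
      rw [a2] at ih
      have v := ih (by linarith)
      have x := ex (-(i : ℤ) - 1)
      rw [sub_add_cancel] at u x
      rw [x] at v
      have id : e₁ * (tp (-(i : ℤ) - 1) 0 -
          Complex.exp ((((-(i : ℤ) - 1 : ℤ) : ℝ) * α : ℝ) * I) * tp 0 0) =
          (tp (-(i : ℤ)) 0 - e₁ * Complex.exp ((((-(i : ℤ) - 1 : ℤ) : ℝ) * α : ℝ) * I) * tp 0 0) -
          (tp (-(i : ℤ)) 0 - e₁ * tp (-(i : ℤ) - 1) 0) := by ring
      have n := congrArg norm id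
      rw [norm_mul, ne₁, one_mul] at n
      rw [n]
      refine (norm_sub_le _ _).trans ?_
      linarith
  have S2 : ∀ k : ℤ, |(k : ℝ)| ≤ 2 * √t₁ → ∀ b : ℕ, (b : ℝ) ≤ √t₂ →
      ‖e ^ b * tp k b - tp k 0‖ ≤ b * (5 * A / t₂) := by
    intro k hk b
    induction b with
    | zero => intro _; simp
    | succ i ih =>
      intro hb
      have i0 : (0 : ℝ) ≤ i := Nat.cast_nonneg i
      push_cast at hb ⊢
      have v := ih (by linarith)
      have u := T2 k i hk (by push_cast; rw [abs_of_nonneg i0]; linarith)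
      have id : e ^ (i + 1) * tp k (i + 1) - tp k 0 =
          e ^ (i + 1) * (tp k (i + 1) - e₂ * tp k i) + (e ^ i * tp k i - tp k 0) := by
        linear_combination (e ^ i * tp k i) * ee
      rw [id]
      refine (norm_add_le _ _).trans ?_
      rw [norm_mul, norm_pow, ne, one_pow, one_mul]
      linarith
  refine ⟨e, ne, fun β hβ => ?_⟩
  set n := ⌈√t₂⌉₊ with hn
  have n1 : √t₂ ≤ n := Nat.le_ceil _
  have nb : ∀ b ∈ Finset.range n, (b : ℝ) ≤ √t₂ := fun b hb =>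
    (Nat.lt_ceil.1 (Finset.mem_range.1 hb)).le
  set F : ℤ → ℂ := fun k => ∑ b ∈ Finset.range n, e ^ b * g k b with hF
  have main := seq_sum (d := fun k => c (m₁ + k)) (F := F) (r := √t₁) (θ := 2 * β) (α := α)
    (B := n * A) (Er := n * (11 * A / √t₁)) (K₀ := K₀) (T := n * tp 0 0) r1 (fun k => c0 _)
    (fun k hk => c1 _ (by simpa using hk)) (fun k hk => c2 _ (by simpa using hk))
    (fun k => by simpa [add_assoc] using c3 (m₁ + k))
    (fun k hk => by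
      have : ∀ b ∈ Finset.range n, ‖e ^ b * g k b‖ ≤ A := fun b hb => by
        rw [norm_mul, norm_pow, ne, one_pow, one_mul]
        refine hg.bd k b hk ?_
        push_cast
        rw [abs_of_nonneg (Nat.cast_nonneg b)]
        linarith [nb b hb]
      simpa using (norm_sum_le _ _).trans (Finset.sum_le_card_nsmul _ _ _ this))
    (fun k hk => by
      have id : F (k + 1) - f₁ * F k - Complex.exp ((k * α : ℝ) * I) * (n * tp 0 0) =
          ∑ b ∈ Finset.range n, ((e ^ b * tp k b - tp k 0) +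
            (tp k 0 - Complex.exp ((k * α : ℝ) * I) * tp 0 0)) := by
        simp only [hF, htp, Finset.mul_sum, Finset.sum_add_distrib, Finset.sum_sub_distrib,
          Finset.sum_const, Finset.card_range, nsmul_eq_mul, mul_sub]
        have : ∑ b ∈ Finset.range n, f₁ * (e ^ b * g k b) =
            ∑ b ∈ Finset.range n, e ^ b * (f₁ * g k b) :=
          Finset.sum_congr rfl fun b _ => by ring
        rw [this]
        ring
      have : ∀ b ∈ Finset.range n, ‖(e ^ b * tp k b - tp k 0) +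
          (tp k 0 - Complex.exp ((k * α : ℝ) * I) * tp 0 0)‖ ≤ 11 * A / √t₁ := fun b hb => by
        have y1 := S2 k hk b (nb b hb)
        have y2 := S1 k hk
        have y3 : (b : ℝ) * (5 * A / t₂) ≤ 5 * A / √t₁ := by
          calc (b : ℝ) * (5 * A / t₂) ≤ √t₂ * (5 * A / (√t₂ * √t₂)) := by
                rw [q2]; exact mul_le_mul_of_nonneg_right (nb b hb) (by positivity)
            _ = 5 * A / √t₂ := by field_simp
            _ ≤ 5 * A / √t₁ := div_le_div_of_nonneg_left (by positivity) (by linarith) r2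
        have y4 : |(k : ℝ)| * (3 * A / t₁) ≤ 6 * A / √t₁ := by
          calc |(k : ℝ)| * (3 * A / t₁) ≤ 2 * √t₁ * (3 * A / (√t₁ * √t₁)) := by
                rw [q1]; exact mul_le_mul_of_nonneg_right hk (by positivity)
            _ = 6 * A / √t₁ := by field_simp; ring
        have y5 : 11 * A / √t₁ = 5 * A / √t₁ + 6 * A / √t₁ := by ring
        have := norm_add_le (e ^ b * tp k b - tp k 0)
          (tp k 0 - Complex.exp ((k * α : ℝ) * I) * tp 0 0)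
        linarith
      rw [id]
      simpa using (norm_sum_le _ _).trans (Finset.sum_le_card_nsmul _ _ _ this))
    (by
      have : 2 * β + α = 2 * (β + α / 2) := by ring
      rw [this, abs_mul, abs_two]
      have : 1 / (2 * √t₁) = 2 * (1 / (4 * √t₁)) := by field_simp; ring
      linarith)
  have ea : ‖avg τ c β e n m₂ (m₁ + m₃)‖ =
      ‖∑' k : ℤ, (c (m₁ + k) : ℂ) * Complex.exp ((k * (2 * β) : ℝ) * I) * F k‖ := by
    have : avg τ c β e n m₂ (m₁ + m₃) = Complex.exp ((m₁ * (2 * β) : ℝ) * I) *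
        ∑' k : ℤ, (c (m₁ + k) : ℂ) * Complex.exp ((k * (2 * β) : ℝ) * I) * F k := by
      rw [avg, ← (Equiv.addLeft m₁).tsum_eq, ← tsum_mul_left]
      refine tsum_congr fun k => ?_
      have x : Complex.exp (2 * ((m₁ + k : ℤ) : ℂ) * β * I) =
          Complex.exp ((m₁ * (2 * β) : ℝ) * I) * Complex.exp ((k * (2 * β) : ℝ) * I) := by
        rw [← Complex.exp_add]
        congr 1
        push_cast; ring
      have y : ∀ b : ℕ, m₁ + m₃ - (m₁ + k) - b = m₃ - k - b := fun b => by ring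
      simp only [Equiv.coe_addLeft, x, y, hF, hgd]
      ring
    rw [this, norm_mul, seq_norm_exp, one_mul]
  rw [← ea, norm_mul, Complex.norm_natCast] at main
  have t0 : tp 0 0 = τ (m₁ + 1) m₂ (m₃ - 1) - f₁ * τ m₁ m₂ m₃ := by simp [htp, hgd]
  rw [t0] at main
  have n0 : (0 : ℝ) < n := by linarith
  refine le_of_mul_le_mul_left (main.trans ?_) n0
  have y1 : 4 * ‖avg τ c β e n m₂ (m₁ + m₃)‖ / √t₁ ≤
      n * (4 * ‖avg τ c β e n m₂ (m₁ + m₃)‖ / (√t₁ * √t₂)) := by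
    calc 4 * ‖avg τ c β e n m₂ (m₁ + m₃)‖ / √t₁ =
          √t₂ * (4 * ‖avg τ c β e n m₂ (m₁ + m₃)‖ / (√t₁ * √t₂)) := by field_simp
      _ ≤ _ := mul_le_mul_of_nonneg_right n1 (by positivity)
  have y2 : 2 * (n * (11 * A / √t₁)) + 14 * |K₀| * (n * A) / √t₁ =
      n * ((22 + 14 * |K₀|) * A / √t₁) := by ring
  rw [mul_add]
  linarith

end Pool.Agent.MP_a28cf0_nt.Cub
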