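import Pool.Agent.MP_a28cf0_nt.Cub.Kan

set_option autoImplicit false

namespace Pool.Agent.MP_a28cf0_nt.Cub

open MeasureTheory Complex Filter Topology Set
open scoped ENNReal MatrixGroups

theorem unfold_line (c : ℝ) : volume {z : ℂ | z.re = c} = 0 := by
  have h := Complex.volume_preserving_equiv_real_prod.measure_preimage
    (s := ({c} : Set ℝ) ×ˢ (univ : Set ℝ))
    ((measurableSet_singleton c).prod MeasurableSet.univ).nullMeasurableSet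
  rw [Measure.volume_eq_prod, Measure.prod_prod, Real.volume_singleton, zero_mul] at h
  rw [← h]
  congr 1
  ext z
  simp

theorem unfold_null : ∀ᵐ M ∂nu, |(pr M).re| ≠ 1 / 2 ∧ ‖pr M‖ ≠ 1 := by
  have h1 : ∀ᵐ z : ℂ, |z.re| ≠ 1 / 2 ∧ ‖z‖ ≠ 1 := by
    have a1 := measure_eq_zero_iff_ae_notMem.1 (unfold_line (1 / 2))
    have a2 := measure_eq_zero_iff_ae_notMem.1 (unfold_line (-(1 / 2)))
    have a3 := measure_eq_zero_iff_ae_notMem.1 (Measure.addHaar_sphere (volume : Measure ℂ) 0 1)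
    filter_upwards [a1, a2, a3] with z h1 h2 h3
    refine ⟨fun h => ?_, by simpa using h3⟩
    rcases (abs_eq (by norm_num)).1 h with h | h
    exacts [h1 h, h2 h]
  refine ae_of_ae_map (p := fun z : ℂ => |z.re| ≠ 1 / 2 ∧ ‖z‖ ≠ 1)
    measurable_pr.aemeasurable ?_
  rw [kan]
  exact (withDensity_absolutelyContinuous _ _).ae_le (ae_restrict_of_ae h1)

theorem unfold_mem (γ : SL(2, ℤ)) {M : E} (hM : M ∈ Gp) : act γ M ∈ Gp := by
  simpa only [Gp, mem_ofPred_eq, dt_act] using hM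

theorem unfold_sh (γ : SL(2, ℤ)) (M : E) : act γ M ∈ Sh ↔ M ∈ Sh := by
  simp only [Sh, mem_ofPred_eq, dt_act]

theorem unfold_tile : ∀ᵐ M ∂nu, M ∈ Sh ∧
    ∃ γ₀ : SL(2, ℤ), ∀ γ : SL(2, ℤ), pr (act γ M) ∈ Fd ↔ γ = γ₀ ∨ γ = -γ₀ := by
  have : Countable SL(2, ℤ) :=
    inferInstanceAs (Countable {A : Fin 2 → Fin 2 → ℤ // Matrix.det (Matrix.of A) = 1})
  have h1 : ∀ᵐ M ∂nu, ∀ γ : SL(2, ℤ), |(pr (act γ M)).re| ≠ 1 / 2 ∧ ‖pr (act γ M)‖ ≠ 1 :=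
    ae_all_iff.2 fun γ => (mp_act γ).quasiMeasurePreserving.ae unfold_null
  filter_upwards [h1, ae_mem_Sh] with M h1 hM
  obtain ⟨γ₀, h0⟩ := exists_fd (Sh_subset hM)
  refine ⟨hM, γ₀, fun γ => ⟨fun h => ?_, ?_⟩⟩
  · have hG := unfold_mem γ₀ (Sh_subset hM)
    have h2 : (⟨pr (act γ₀ M), h0.1⟩ : UpperHalfPlane) ∈ ModularGroup.fdo :=
      ⟨Complex.one_lt_normSq_iff.2 (lt_of_le_of_ne h0.2.2 (h1 γ₀).2.symm),
        lt_of_le_of_ne h0.2.1 (h1 γ₀).1⟩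
    have h3 : (((γ * γ₀⁻¹) • (⟨pr (act γ₀ M), h0.1⟩ : UpperHalfPlane) : UpperHalfPlane) : ℂ) =
        pr (act γ M) := by
      rw [UpperHalfPlane.coe_specialLinearGroup_apply, ← inv_mul_cancel_right γ γ₀, act_mul,
        pr_act _ hG, inv_mul_cancel_right]
      simp
    have h4 := ModularGroup.eq_one_or_neg_one_of_mem_fdo_mem_fd (g := γ * γ₀⁻¹) h2
      ⟨by rw [h3]; exact Complex.one_le_normSq_iff.2 h.2.2,
        by rw [← UpperHalfPlane.coe_re, h3]; exact h.2.1⟩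
    simpa only [mul_inv_eq_iff_eq_mul, one_mul, neg_mul] using h4
  · rintro (rfl | rfl)
    · exact h0
    · have : pr (act (-γ₀) M) = pr (act γ₀ M) := by
        simp only [pr, act, Matrix.SpecialLinearGroup.coe_neg, Matrix.neg_apply, Int.cast_neg,
          neg_mul, ← neg_add, neg_div_neg_eq]
      rwa [this]

theorem unfold_ne (γ : SL(2, ℤ)) : γ ≠ -γ := fun h => by
  have h1 : (1 : SL(2, ℤ)) = -1 := by simpa using congrArg (· * γ⁻¹) h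
  have h2 := congrArg (fun g : SL(2, ℤ) => g 0 0) h1
  simp at h2

theorem unfold_sum {G : E → ℝ} (hG : Integrable G nu) {R : ℝ}
    (hR : ∀ M ∈ Sh, R < ‖M‖ → G M = 0) :
    2 * ∫ M, G M ∂nu = ∫ M in Fe, ∑' γ : SL(2, ℤ), G (act γ M) ∂nu := by
  classical
  obtain ⟨ρ, hρ⟩ := bound_fd R
  obtain ⟨T, hT⟩ : ∃ T : Finset SL(2, ℤ), ∀ γ, ∀ M ∈ Sh, G M ≠ 0 → pr (act γ M) ∈ Fd → γ ∈ T :=
    ⟨(finite_act R ρ 1 one_pos).toFinset, fun γ M hM h1 h2 => by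
      have h3 : ‖M‖ ≤ R := not_lt.1 fun h => h1 (hR M hM h)
      exact (Finite.mem_toFinset _).2
        ⟨M, h3, hM.1, hρ M ⟨hM, mem_closedBall_zero_iff.2 h3⟩ γ h2⟩⟩
  have hi : ∀ γ : SL(2, ℤ), Integrable (Fe.indicator fun M => G (act γ⁻¹ M)) nu := fun γ =>
    ((mp_act γ⁻¹).integrable_comp_of_integrable hG).indicator measurableSet_Fe
  have h1 : ∫ M in Fe, ∑' γ : SL(2, ℤ), G (act γ M) ∂nu =
      ∑ γ ∈ T, ∫ M, Fe.indicator (fun M => G (act γ⁻¹ M)) M ∂nu := by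
    rw [← integral_finsetSum _ fun γ _ => hi γ, ← integral_indicator measurableSet_Fe]
    refine integral_congr_ae (.of_forall fun M => ?_)
    by_cases hM : M ∈ Fe
    · simp only [indicator_of_mem hM]
      rw [← (Equiv.inv SL(2, ℤ)).tsum_eq]
      refine tsum_eq_sum fun γ hγ => not_not.1 fun h => hγ (hT γ (act γ⁻¹ M)
        ((unfold_sh _ _).2 hM.1) h ?_)
      rw [← act_mul, mul_inv_cancel, act_one]
      exact hM.2
    · simp [indicator_of_notMem hM]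
  rw [h1, ← integral_const_mul, Finset.sum_congr rfl fun γ _ =>
    ((mp_act γ).integral_comp (me_act γ) (Fe.indicator fun M => G (act γ⁻¹ M))).symm,
    ← integral_finsetSum (f := fun γ M => Fe.indicator (fun M => G (act γ⁻¹ M)) (act γ M)) _
      fun γ _ => (mp_act γ).integrable_comp_of_integrable (hi γ)]
  refine integral_congr_ae ?_
  filter_upwards [unfold_tile] with M ⟨hM, γ₀, h0⟩
  have h2 : ∀ γ : SL(2, ℤ), Fe.indicator (fun M => G (act γ⁻¹ M)) (act γ M) =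
      if γ ∈ ({γ₀, -γ₀} : Finset SL(2, ℤ)) then G M else 0 := fun γ => by
    have h3 : act γ M ∈ Fe ↔ γ ∈ ({γ₀, -γ₀} : Finset SL(2, ℤ)) := by
      rw [Finset.mem_insert, Finset.mem_singleton, ← h0]
      exact and_iff_right ((unfold_sh _ _).2 hM)
    split_ifs with h
    · rw [indicator_of_mem (h3.2 h), ← act_mul, inv_mul_cancel, act_one]
    · exact indicator_of_notMem (fun h' => h (h3.1 h')) _
  simp only [h2]
  by_cases h : G M = 0
  · simp [h]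
  rw [Finset.sum_ite_mem, Finset.inter_eq_right.2 fun γ hγ => hT γ M hM h ((h0 γ).2 (by
    simpa using hγ)), Finset.sum_pair (unfold_ne γ₀), two_mul]

theorem unfold_loc {χ : E → ℝ} (hc : HasCompactSupport χ) {M : E} (hM : M ∈ Gp) :
    ∃ T : Finset SL(2, ℤ), ∀ᶠ N in 𝓝 M, ∀ γ ∉ T, χ (act γ N) = 0 := by
  obtain ⟨R, hR⟩ := hc.isCompact.isBounded.subset_closedBall 0
  have h0 : 0 < dt M := hM
  refine ⟨(finite_act (‖M‖ + 1) R (dt M / 2) (half_pos h0)).toFinset, ?_⟩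
  filter_upwards [continuous_norm.continuousAt.eventually (gt_mem_nhds (lt_add_one ‖M‖)),
    continuous_dt.continuousAt.eventually (lt_mem_nhds (half_lt_self h0))] with N h1 h2 γ hγ
  exact not_not.1 fun h => hγ ((Finite.mem_toFinset _).2
    ⟨N, h1.le, h2.le, mem_closedBall_zero_iff.1 (hR (subset_tsupport _ h))⟩)

theorem unfold_bound (Y : ℝ) : ∃ ρ : ℝ, ∀ M ∈ Fe, (pr M).im < Y → ‖M‖ ≤ ρ := by
  refine ⟨(|Y| + 1) * 3, fun M hM hY => ?_⟩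
  have hG := Sh_subset hM.1
  obtain ⟨h1, h2, h3⟩ : 0 < (pr M).im ∧ |(pr M).re| ≤ 1 / 2 ∧ 1 ≤ ‖pr M‖ := hM.2
  have h4 := Complex.norm_le_abs_re_add_abs_im (pr M)
  rw [abs_of_pos h1] at h4
  have h5 := im_pr M
  rw [eq_div_iff (normSq_pos.2 (snd_ne_zero hG)).ne', normSq_eq_norm_sq] at h5
  have h6 : ‖M.2‖ ≤ 3 := by
    have := hM.1.2
    nlinarith [norm_nonneg M.2, sq_nonneg ‖M.2‖]
  have h7 : ‖M.1‖ = ‖pr M‖ * ‖M.2‖ := by
    rw [← norm_mul, pr, div_mul_cancel₀ _ (snd_ne_zero hG)]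
  have h8 := le_abs_self Y
  refine max_le ?_ (by nlinarith [abs_nonneg Y])
  rw [h7]
  exact mul_le_mul (by linarith) h6 (norm_nonneg _) (by positivity)

theorem unfold_push {f : ℂ → ℝ} (hf : ContinuousOn f Up) :
    ∫ M in Fe, f (pr M) ∂nu = 15 * Real.pi / 2 * ∫ z in Fd, f z / z.im ^ 2 := by
  have hsub : Fd ⊆ Up := fun z hz => hz.1
  have h1 : ∫ z in Fd, f z ∂(nu.map pr) = ∫ M in pr ⁻¹' Fd, f (pr M) ∂nu := by
    rw [Measure.restrict_map measurable_pr measurableSet_Fd]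
    refine integral_map measurable_pr.aemeasurable ?_
    rw [← Measure.restrict_map measurable_pr measurableSet_Fd]
    exact (hf.mono hsub).aestronglyMeasurable measurableSet_Fd
  have h2 : Fe =ᵐ[nu] pr ⁻¹' Fd := by
    filter_upwards [ae_mem_Sh] with M hM
    exact propext (and_iff_right hM)
  rw [setIntegral_congr_set h2, ← h1, kan, restrict_withDensity measurableSet_Fd,
    integral_withDensity_eq_integral_toReal_smul (by fun_prop) (.of_forall fun _ =>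
      ENNReal.ofReal_lt_top), Measure.restrict_restrict measurableSet_Fd, inter_eq_left.2 hsub,
    ← integral_const_mul]
  refine integral_congr_ae (.of_forall fun z => ?_)
  beta_reduce
  rw [ENNReal.toReal_ofReal (by positivity), smul_eq_mul]
  ring

/-- normalisation of the determinant -/
noncomputable def unfoldN (M : E) : E := (√(dt M))⁻¹ • M

theorem unfoldN_dt {M : E} (hM : M ∈ Gp) : dt (unfoldN M) = 1 := by
  rw [unfoldN, dt_smul, inv_pow, Real.sq_sqrt (le_of_lt hM), inv_mul_cancel₀ (ne_of_gt hM)]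

theorem unfoldN_sh {M : E} (hM : M ∈ Gp) : unfoldN M ∈ Sh :=
  ⟨(unfoldN_dt hM).ge, (unfoldN_dt hM).le.trans (by norm_num)⟩

theorem unfoldN_pr {M : E} (hM : M ∈ Gp) : pr (unfoldN M) = pr M :=
  pr_smul (inv_ne_zero (Real.sqrt_pos.2 hM).ne') M

theorem unfoldN_act (γ : SL(2, ℤ)) (M : E) : unfoldN (act γ M) = act γ (unfoldN M) := by
  rw [unfoldN, dt_act, unfoldN, act_smul]

theorem unfoldN_rot (θ : ℝ) (M : E) : unfoldN (rot θ M) = rot θ (unfoldN M) := by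
  rw [unfoldN, dt_rot, unfoldN, rot_smul]

theorem unfoldN_smul {s : ℝ} (hs : 0 < s) (M : E) : unfoldN (s • M) = unfoldN M := by
  rw [unfoldN, dt_smul, Real.sqrt_mul (sq_nonneg s), Real.sqrt_sq hs.le, smul_smul, unfoldN,
    mul_inv, mul_right_comm, inv_mul_cancel₀ hs.ne', one_mul]

theorem unfoldN_smooth : ContDiffOn ℝ (⊤ : ℕ∞) unfoldN Gp :=
  ((contDiff_dt.contDiffOn.sqrt fun _ hM => ne_of_gt hM).inv
    fun _ hM => (Real.sqrt_pos.2 hM).ne').smul contDiffOn_id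

theorem unfoldN_norm {M : E} (h0 : 0 < dt M) (h1 : dt M < 5) : ‖M‖ ≤ 3 * ‖unfoldN M‖ := by
  have h2 := Real.sqrt_pos.2 h0
  have h3 : √(dt M) ≤ 3 := Real.sqrt_le_iff.2 ⟨by norm_num, by linarith⟩
  rw [unfoldN, norm_smul, Real.norm_of_nonneg (inv_pos.2 h2).le, ← mul_assoc]
  exact le_mul_of_one_le_left (norm_nonneg _) (by rwa [← div_eq_mul_inv, one_le_div h2])

theorem unfold_core (ψ : ℂ → ℝ) (hs : ∀ n : ℕ, ContDiffOn ℝ n ψ Up)
    (hi : ∀ z : ℂ, 0 < z.im → ψ (z + 1) = ψ z ∧ ψ (-z⁻¹) = ψ z)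
    (hY : ∃ Y : ℝ, ∀ z : ℂ, Y ≤ z.im → ψ z = 0) :
    ∃ Ψ : E → ℝ, Test (fun M => (Ψ M : ℂ)) ∧ (∀ M, 0 ≤ ψ (pr M) → 0 ≤ Ψ M) ∧
      (∀ θ M, Ψ (rot θ M) = Ψ M) ∧ (∀ s : ℝ, 0 < s → ∀ M, Ψ (s • M) = Ψ M) ∧
      ∀ F : ℂ → ℝ, ContinuousOn F Up →
      (∀ z : ℂ, 0 < z.im → F (z + 1) = F z ∧ F (-z⁻¹) = F z) →
      ∫ z in Fd, ψ z * F z / z.im ^ 2 = ∫ M, Ψ M * F (pr M) ∂nu := by
  obtain ⟨Y, hY⟩ := hY
  obtain ⟨ρ, hρ⟩ := unfold_bound Y
  obtain ⟨χ, c1, c2, c3, c4, c5, -⟩ := exists_cutoff ρ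
  obtain ⟨S, hS⟩ : ∃ S : E → ℝ, S = fun M => ∑' γ : SL(2, ℤ), χ (act γ M) := ⟨_, rfl⟩
  have s0 : ∀ M, 0 ≤ S M := fun M => hS ▸ tsum_nonneg fun γ => (c3 _).1
  have s1 : ContDiffOn ℝ (⊤ : ℕ∞) S Gp := fun M hM => by
    obtain ⟨T, hT⟩ := unfold_loc c2 hM
    refine (ContDiffAt.congr_of_eventuallyEq (f := fun N => ∑ γ ∈ T, χ (act γ N))
      (ContDiff.sum fun γ _ => c1.comp (contDiff_act γ)).contDiffAt ?_).contDiffWithinAt
    filter_upwards [hT] with N hN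
    rw [hS]
    exact tsum_eq_sum hN
  have s2 : ∀ (γ : SL(2, ℤ)) M, S (act γ M) = S M := fun γ M => by
    simp only [hS, ← act_mul]
    exact (Equiv.mulRight γ).tsum_eq fun g => χ (act g M)
  have s3 : ∀ M ∈ Sh, ψ (pr M) ≠ 0 → 1 ≤ S M := fun M hM h => by
    obtain ⟨γ, hγ⟩ := exists_fd (Sh_subset hM)
    obtain ⟨T, hT⟩ := unfold_loc c2 (Sh_subset hM)
    rw [← inv_of_gen hi γ (Sh_subset hM)] at h
    rw [← c4 _ (hρ _ ⟨(unfold_sh γ M).2 hM, hγ⟩ (not_le.1 fun h' => h (hY _ h'))), hS]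
    exact (summable_of_ne_finset_zero hT.self_of_nhds).le_tsum γ fun g _ => (c3 _).1
  have s4 : ∀ θ M, S (rot θ M) = S M := fun θ M => by simp only [hS, act_rot, c5]
  obtain ⟨D, hD⟩ : ∃ D : E → ℝ, D = fun M => S M + expNegInvGlue (1 - S M) := ⟨_, rfl⟩
  have d0 : ∀ M, 0 < D M := fun M => by
    rw [hD]
    rcases (s0 M).eq_or_lt with h | h
    · exact add_pos_of_nonneg_of_pos (s0 M) (expNegInvGlue.pos_of_pos (by linarith))
    · exact add_pos_of_pos_of_nonneg h (expNegInvGlue.nonneg _)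
  have d1 : ContDiffOn ℝ (⊤ : ℕ∞) D Gp :=
    hD ▸ s1.add (expNegInvGlue.contDiff.comp_contDiffOn (contDiffOn_const.sub s1))
  have p0 : ContDiffOn ℝ (⊤ : ℕ∞) (fun M => χ (unfoldN M)) Gp := c1.comp_contDiffOn unfoldN_smooth
  have p1 : ContDiffOn ℝ (⊤ : ℕ∞) (fun M => ψ (pr M) / D (unfoldN M)) Gp :=
    ((contDiffOn_infty.2 hs).comp contDiffOn_pr fun M hM => pr_mem hM).div
      (d1.comp unfoldN_smooth fun M hM => Sh_subset (unfoldN_sh hM)) fun M _ => (d0 _).ne'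
  obtain ⟨R, hR⟩ := c2.isCompact.isBounded.subset_closedBall 0
  have hv : ∀ M : E, 1 / 2 < dt M → dt M < 5 → 3 * R < ‖M‖ → χ (unfoldN M) = 0 :=
    fun M h1 h2 h3 => not_not.1 fun h => by
      linarith [mem_closedBall_zero_iff.1 (hR (subset_tsupport _ h)),
        unfoldN_norm (one_half_pos.trans h1) h2]
  have hπ := Real.pi_pos
  refine ⟨fun M => χ (unfoldN M) * (4 / (15 * Real.pi) * (ψ (pr M) / D (unfoldN M))),
    ⟨Complex.ofRealCLM.contDiff.comp_contDiffOn (p0.mul (contDiffOn_const.mul p1)),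
      3 * R, fun M h1 h2 h3 => by simp only [hv M h1 h2 h3, zero_mul, Complex.ofReal_zero]⟩,
    fun M hM => mul_nonneg (c3 _).1 (mul_nonneg (by positivity) (div_nonneg hM (d0 _).le)),
    fun θ M => by simp only [unfoldN_rot, c5, pr_rot, hD, s4],
    fun s hs M => by simp only [unfoldN_smul hs, pr_smul hs.ne'], fun F hF hFi => ?_⟩
  have hFc : ContinuousOn (fun M => F (pr M)) Gp :=
    hF.comp (contDiffOn_pr (n := 0)).continuousOn fun M hM => pr_mem hM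
  have hR' : ∀ M ∈ Sh, 3 * R < ‖M‖ →
      χ (unfoldN M) * (ψ (pr M) / D (unfoldN M) * F (pr M)) = 0 := fun M hM h => by
    rw [hv M (by linarith [hM.1]) (by linarith [hM.2]) h, zero_mul]
  have h1 := unfold_sum (integrable_of_cont
    (p0.continuousOn.mul (p1.continuousOn.mul hFc)) hR') hR'
  have h2 : ∫ M in Fe, ∑' γ : SL(2, ℤ), χ (unfoldN (act γ M)) *
      (ψ (pr (act γ M)) / D (unfoldN (act γ M)) * F (pr (act γ M))) ∂nu =
      ∫ M in Fe, ψ (pr M) * F (pr M) ∂nu := by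
    refine setIntegral_congr_fun measurableSet_Fe fun M hM => ?_
    have hG := Sh_subset hM.1
    have e : ∑' γ : SL(2, ℤ), χ (act γ (unfoldN M)) = S (unfoldN M) := by rw [hS]
    simp only [inv_of_gen hi _ hG, inv_of_gen hFi _ hG, hD, unfoldN_act, s2, tsum_mul_right, e]
    by_cases h : ψ (pr M) = 0
    · simp [h]
    have h3 := s3 _ (unfoldN_sh hG) (by rwa [unfoldN_pr hG])
    rw [expNegInvGlue.zero_of_nonpos (by linarith), add_zero]
    field_simp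
  have h3 := unfold_push (f := fun z => ψ z * F z) ((hs 0).continuousOn.mul hF)
  simp only [Pi.mul_apply] at h1
  rw [h2, h3] at h1
  have h4 : ∫ z in Fd, ψ z * F z / z.im ^ 2 = 4 / (15 * Real.pi) *
      ∫ M, χ (unfoldN M) * (ψ (pr M) / D (unfoldN M) * F (pr M)) ∂nu := by
    rw [div_mul_eq_mul_div, eq_div_iff (by positivity)]
    linarith
  rw [h4, ← integral_const_mul]
  refine integral_congr_ae (.of_forall fun M => ?_)
  beta_reduce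
  ring

/-- unfolding of the integral over the fundamental domain -/
theorem unfold (ψ : ℂ → ℝ) (hs : ∀ n : ℕ, ContDiffOn ℝ n ψ Up)
    (hi : ∀ z : ℂ, 0 < z.im → ψ (z + 1) = ψ z ∧ ψ (-z⁻¹) = ψ z)
    (hY : ∃ Y : ℝ, ∀ z : ℂ, Y ≤ z.im → ψ z = 0) :
    ∃ Ψ : E → ℂ, Test Ψ ∧ ∀ F : ℂ → ℝ, ContinuousOn F Up →
      (∀ z : ℂ, 0 < z.im → F (z + 1) = F z ∧ F (-z⁻¹) = F z) →
      ((∫ z in Fd, ψ z * F z / z.im ^ 2 : ℝ) : ℂ) = ∫ M, Ψ M * (F (pr M) : ℂ) ∂nu := by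
  obtain ⟨Ψ, h1, -, -, -, h2⟩ := unfold_core ψ hs hi hY
  refine ⟨_, h1, fun F hF hFi => ?_⟩
  rw [h2 F hF hFi, ← integral_complex_ofReal]
  simp only [Complex.ofReal_mul]

/-- unfolding with a nonnegative, rotation invariant and homogeneous weight -/
theorem unfold' (ψ : ℂ → ℝ) (hs : ∀ n : ℕ, ContDiffOn ℝ n ψ Up)
    (hi : ∀ z : ℂ, 0 < z.im → ψ (z + 1) = ψ z ∧ ψ (-z⁻¹) = ψ z)
    (hY : ∃ Y : ℝ, ∀ z : ℂ, Y ≤ z.im → ψ z = 0) (h0 : ∀ z : ℂ, 0 < z.im → 0 ≤ ψ z) :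
    ∃ Ψ : E → ℝ, Test (fun M => (Ψ M : ℂ)) ∧ (∀ M ∈ Gp, 0 ≤ Ψ M) ∧
      (∀ θ : ℝ, ∀ M ∈ Gp, Ψ (rot θ M) = Ψ M) ∧ (∀ s : ℝ, 0 < s → ∀ M ∈ Gp, Ψ (s • M) = Ψ M) ∧
      ∀ F : ℂ → ℝ, ContinuousOn F Up →
      (∀ z : ℂ, 0 < z.im → F (z + 1) = F z ∧ F (-z⁻¹) = F z) →
      ∫ z in Fd, ψ z * F z / z.im ^ 2 = ∫ M, Ψ M * F (pr M) ∂nu := by
  obtain ⟨Ψ, h1, h2, h3, h4, h5⟩ := unfold_core ψ hs hi hY
  exact ⟨Ψ, h1, fun M hM => h2 M (h0 _ (pr_mem hM)), fun θ M _ => h3 θ M,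
    fun s hs M _ => h4 s hs M, h5⟩

end Pool.Agent.MP_a28cf0_nt.Cub
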